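import Mathlib

/-!
# Definitions for MP_76005e_an (helper66)

The Banach-Mazur distance, the Banach-Mazur diameter of an isomorphism class, the density
character, and (almost) biorthogonal systems.
-/

set_option autoImplicit false

namespace Pool.Agent.Lib.MP_76005e_an

universe u

open Cardinal

open scoped ENNReal

/-- The Banach-Mazur distance `inf {‖T‖ ‖T⁻¹‖ : T : Y → Z an isomorphism onto}` of two normed
spaces (`⊤` if they are not isomorphic). -/
noncomputable def bmDist (𝕜 : Type) [RCLike 𝕜] (Y Z : Type u) [NormedAddCommGroup Y]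
    [NormedSpace 𝕜 Y] [NormedAddCommGroup Z] [NormedSpace 𝕜 Z] : ℝ≥0∞ :=
  ⨅ T : Y ≃L[𝕜] Z, ENNReal.ofReal (‖(T : Y →L[𝕜] Z)‖ * ‖(T.symm : Z →L[𝕜] Y)‖)

/-- A Banach space isomorphic to the normed space `X`. -/
structure Isomorph (𝕜 : Type) [RCLike 𝕜] (X : Type u) [NormedAddCommGroup X]
    [NormedSpace 𝕜 X] where
  /-- the space -/
  space : Type u
  [grp : NormedAddCommGroup space]
  [spc : NormedSpace 𝕜 space]
  [complete : CompleteSpace space]
  iso : Nonempty (X ≃L[𝕜] space)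

attribute [instance] Isomorph.grp Isomorph.spc Isomorph.complete

/-- The Banach-Mazur diameter `D(X)` of the isomorphism class of `X`: the supremum of
`d(Y, Z)` over all Banach spaces `Y`, `Z` isomorphic to `X`. -/
noncomputable def bmDiam (𝕜 : Type) [RCLike 𝕜] (X : Type u) [NormedAddCommGroup X]
    [NormedSpace 𝕜 X] : ℝ≥0∞ :=
  ⨆ (Y : Isomorph 𝕜 X) (Z : Isomorph 𝕜 X), bmDist 𝕜 Y.space Z.space

/-- The density character of `X`: the least cardinality of a dense subset. -/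
noncomputable def dens (X : Type u) [TopologicalSpace X] : Cardinal.{u} :=
  ⨅ D : {D : Set X // Dense D}, #(D : Set X)

/-- `(x i, f i)` is an `ε`-biorthogonal system: `f i (x i) = 1`, and `|f i (x j)| ≤ ε` for
`i ≠ j`. For `ε = 0` this is a biorthogonal system. -/
def IsBiorthogonal {𝕜 : Type} [RCLike 𝕜] {X : Type u} [NormedAddCommGroup X] [NormedSpace 𝕜 X]
    {ι : Type u} (ε : ℝ) (x : ι → X) (f : ι → X →L[𝕜] 𝕜) : Prop :=
  (∀ i, f i (x i) = 1) ∧ ∀ i j, i ≠ j → ‖f i (x j)‖ ≤ ε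

/-- A set of functionals is total if it separates the points of `X`. -/
def IsTotal {𝕜 : Type} [RCLike 𝕜] {X : Type u} [NormedAddCommGroup X] [NormedSpace 𝕜 X]
    (G : Set (X →L[𝕜] 𝕜)) : Prop :=
  ∀ x, (∀ g ∈ G, g x = 0) → x = 0

/-- A set of functionals is norming: for some `c > 0` and bounded by `1`,
`sup_{g ∈ G} |g x| ≥ c ‖x‖`. -/
def IsNorming {𝕜 : Type} [RCLike 𝕜] {X : Type u} [NormedAddCommGroup X] [NormedSpace 𝕜 X]
    (G : Set (X →L[𝕜] 𝕜)) : Prop :=
  (∀ g ∈ G, ‖g‖ ≤ 1) ∧ ∃ c : ℝ, 0 < c ∧ ∀ x r, (∀ g ∈ G, ‖g x‖ ≤ r) → c * ‖x‖ ≤ r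

lemma exists_dense_card (X : Type u) [TopologicalSpace X] : ∃ D : Set X, Dense D ∧ #D = dens X := by
  have : Nonempty {D : Set X // Dense D} := ⟨⟨Set.univ, dense_univ⟩⟩
  obtain ⟨D, hD⟩ := ciInf_mem (fun D : {D : Set X // Dense D} => #(D : Set X))
  exact ⟨D.1, D.2, hD⟩

lemma dens_le (X : Type u) [TopologicalSpace X] {D : Set X} (hD : Dense D) : dens X ≤ #D :=
  ciInf_le' (fun D : {D : Set X // Dense D} => #(D : Set X)) ⟨D, hD⟩

/-- The density character is uncountable exactly for nonseparable spaces. -/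
lemma aleph0_lt_dens_iff (X : Type u) [TopologicalSpace X] :
    ℵ₀ < dens X ↔ ¬ TopologicalSpace.SeparableSpace X := by
  constructor
  · intro h ⟨D, hc, hd⟩
    exact absurd (dens_le X hd) (not_le.mpr (((Cardinal.mk_le_aleph0_iff (α := D)).mpr
      hc.to_subtype).trans_lt h))
  · intro h
    by_contra hcon
    rw [not_lt] at hcon
    obtain ⟨D, hd, hD⟩ := exists_dense_card X
    rw [← hD, Cardinal.mk_le_aleph0_iff] at hcon
    exact h ⟨D, Set.countable_coe_iff.mp hcon, hd⟩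

end Pool.Agent.Lib.MP_76005e_an
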