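import Mathlib

/-!
# The combinatorial core (MP_76005e_an, helper66)
-/

set_option autoImplicit false

namespace Pool.Agent.Lib.MP_76005e_an

universe u v w

/-- A filtration of a normed space by subspaces `S a` with small sets of functionals `F a`. -/
structure Filt (𝕜 : Type v) [RCLike 𝕜] (X : Type u) [NormedAddCommGroup X] [NormedSpace 𝕜 X]
    (A : Type w) [LinearOrder A] where
  S : A → Submodule 𝕜 X
  V : A → Set X
  F : A → Set (X →L[𝕜] 𝕜)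
  Smono : Monotone S
  Fmono : Monotone F
  VS : ∀ a, V a ⊆ S a
  dense : ∀ (x : X) (ε : ℝ), 0 < ε → ∀ a, ∃ b, a ≤ b ∧ ∃ v ∈ V b, ‖x - v‖ < ε
  approx : ∀ a, ∀ y ∈ S a, ∀ ε : ℝ, 0 < ε → ∃ v ∈ V a, ‖y - v‖ < ε
  norm_le : ∀ a, ∀ g ∈ F a, ‖g‖ ≤ 1
  neg : ∀ a, ∀ g ∈ F a, -g ∈ F a
  norming : ∀ a, ∀ v ∈ V a, ∃ g ∈ F a, g v = ((‖v‖ : ℝ) : 𝕜)
  peak : ∀ q a, q ≤ a → ∀ v ∈ V a, ∃ g ∈ F a, (∀ y ∈ S q, g y = 0) ∧
    g v = ((Metric.infDist v (S q : Set X) : ℝ) : 𝕜)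

section

variable {𝕜 : Type v} [RCLike 𝕜] {X : Type u} [NormedAddCommGroup X] [NormedSpace 𝕜 X]
  {A : Type w} [LinearOrder A]

/-- admissible functionals -/
def Filt.Adm (Φ : Filt 𝕜 X A) (k : ℕ) (φ : X →L[𝕜] 𝕜) : Prop :=
  ∃ q : ℕ → A, Monotone q ∧ ∃ g : ℕ → X →L[𝕜] 𝕜,
    (∀ l, l < k → g l ∈ Φ.F (q (l + 1)) ∧ ∀ y ∈ Φ.S (q l), g l y = 0) ∧
    φ = ((k : 𝕜)⁻¹) • ∑ l ∈ Finset.range k, g l

lemma Filt.Adm.norm_le {Φ : Filt 𝕜 X A} {k : ℕ} (hk : 0 < k) {φ : X →L[𝕜] 𝕜} (h : Φ.Adm k φ) :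
    ‖φ‖ ≤ 1 := by
  obtain ⟨q, _, g, hg, rfl⟩ := h
  have hk' : (0 : ℝ) < k := by exact_mod_cast hk
  rw [norm_smul, norm_inv, RCLike.norm_natCast]
  have h1 : ‖∑ l ∈ Finset.range k, g l‖ ≤ k := by
    refine (norm_sum_le _ _).trans ?_
    calc ∑ l ∈ Finset.range k, ‖g l‖ ≤ ∑ l ∈ Finset.range k, (1 : ℝ) :=
          Finset.sum_le_sum fun l hl => Φ.norm_le _ _ (hg l (Finset.mem_range.mp hl)).1
      _ = k := by simp
  calc (k : ℝ)⁻¹ * ‖∑ l ∈ Finset.range k, g l‖ ≤ (k : ℝ)⁻¹ * k :=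
        mul_le_mul_of_nonneg_left h1 (by positivity)
    _ = 1 := inv_mul_cancel₀ hk'.ne'

/-- The counting lemma: overlapping pairs of two interval partitions. -/
lemma card_overlap {q β : ℕ → A} (hq : Monotone q) (hβ : Monotone β) (m k : ℕ)
    (R : Finset (ℕ × ℕ)) (hR : ∀ p ∈ R, p.1 < m ∧ p.2 < k ∧ q p.2 < β (p.1 + 1) ∧
      β p.1 < q (p.2 + 1)) : R.card ≤ m + k := by
  have hinj : Set.InjOn (fun p : ℕ × ℕ => p.1 + p.2) (R : Set (ℕ × ℕ)) := by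
    have key : ∀ p ∈ R, ∀ p' ∈ R, p.1 + p.2 = p'.1 + p'.2 → ¬ p.1 < p'.1 := by
      intro p hp p' hp' hpp hlt
      obtain ⟨_, _, h1, _⟩ := hR p hp
      obtain ⟨_, _, _, h4⟩ := hR p' hp'
      have h5 : p'.2 + 1 ≤ p.2 := by omega
      have h6 : p.1 + 1 ≤ p'.1 := hlt
      have h7 : q (p'.2 + 1) ≤ q p.2 := hq h5
      have h8 : β (p.1 + 1) ≤ β p'.1 := hβ h6
      exact absurd (h4.trans_le (h7.trans (h1.le.trans h8))) (lt_irrefl _)
    intro p hp p' hp' hpp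
    have hpp' : p.1 + p.2 = p'.1 + p'.2 := hpp
    have h1 := key p hp p' hp' hpp'
    have h2 := key p' hp' p hp hpp'.symm
    have h3 : p.1 = p'.1 := by omega
    exact Prod.ext h3 (by omega)
  have h1 : (R.image fun p : ℕ × ℕ => p.1 + p.2) ⊆ Finset.range (m + k) := by
    intro n hn
    rw [Finset.mem_image] at hn
    obtain ⟨p, hp, rfl⟩ := hn
    obtain ⟨h1, h2, _, _⟩ := hR p hp
    rw [Finset.mem_range]
    omega
  calc R.card = (R.image fun p : ℕ × ℕ => p.1 + p.2).card := (Finset.card_image_of_injOn hinj).symm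
    _ ≤ (Finset.range (m + k)).card := Finset.card_le_card h1
    _ = m + k := Finset.card_range _

/-- distance estimate -/
lemma Filt.le_infDist (Φ : Filt 𝕜 X A) {a : A} {x : X} {δ : ℝ}
    (h : ∀ g ∈ Φ.F a, ‖g x‖ ≤ δ) :
    (‖x‖ - δ) / 2 ≤ Metric.infDist x (Φ.S a : Set X) := by
  rw [Metric.le_infDist ⟨0, (Φ.S a).zero_mem⟩]
  intro y hy
  refine le_of_forall_pos_le_add fun ε hε => ?_
  obtain ⟨v, hv, hyv⟩ := Φ.approx a y hy ε hε
  obtain ⟨g, hg, hgv⟩ := Φ.norming a v hv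
  have h1 : ‖v‖ - δ ≤ ‖x - v‖ := by
    have h2 : ‖g (x - v)‖ ≤ ‖x - v‖ := by
      refine (g.le_opNorm _).trans ?_
      calc ‖g‖ * ‖x - v‖ ≤ 1 * ‖x - v‖ :=
            mul_le_mul_of_nonneg_right (Φ.norm_le a g hg) (norm_nonneg _)
        _ = _ := one_mul _
    have h3 : ‖g v‖ - ‖g x‖ ≤ ‖g (x - v)‖ := by
      rw [map_sub, norm_sub_rev]
      exact norm_sub_norm_le _ _
    have h4 : ‖g v‖ = ‖v‖ := by
      rw [hgv, RCLike.norm_ofReal, abs_of_nonneg (norm_nonneg _)]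
    have h5 := h g hg
    linarith
  have h6 : ‖x‖ - ‖v‖ ≤ ‖x - v‖ := norm_sub_norm_le _ _
  have h7 : ‖x - v‖ ≤ ‖x - y‖ + ‖y - v‖ := norm_sub_le_norm_sub_add_norm_sub _ _ _
  rw [dist_eq_norm]
  linarith

/-- a path of vectors adapted to the filtration -/
structure Path (Φ : Filt 𝕜 X A) (δ : ℝ) (h : ℕ → X) where
  β : ℕ → A
  mono : Monotone β
  v : ℕ → X
  null : ∀ i, ∀ g ∈ Φ.F (β i), ‖g (h i)‖ ≤ δ
  vV : ∀ i, v i ∈ Φ.V (β (i + 1))
  hv : ∀ i, ‖h i - v i‖ ≤ δ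

lemma Path.small_of_vanish {Φ : Filt 𝕜 X A} {δ : ℝ} {h : ℕ → X} (P : Path Φ δ h) {i : ℕ} {a : A}
    (ha : P.β (i + 1) ≤ a) {g : X →L[𝕜] 𝕜} (hg1 : ‖g‖ ≤ 1) (hg : ∀ y ∈ Φ.S a, g y = 0) :
    ‖g (h i)‖ ≤ δ := by
  have h1 : g (P.v i) = 0 := hg _ (Φ.Smono ha (Φ.VS _ (P.vV i)))
  have h2 : g (h i) = g (h i - P.v i) := by rw [map_sub, h1, sub_zero]
  rw [h2]
  refine (g.le_opNorm _).trans ?_
  calc ‖g‖ * ‖h i - P.v i‖ ≤ 1 * ‖h i - P.v i‖ :=
        mul_le_mul_of_nonneg_right hg1 (norm_nonneg _)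
    _ = ‖h i - P.v i‖ := one_mul _
    _ ≤ δ := P.hv i

lemma exists_strictMono {B : Finset ℕ} {k : ℕ} (hk : k ≤ B.card) :
    ∃ j : ℕ → ℕ, StrictMono j ∧ ∀ l, l < k → j l ∈ B := by
  classical
  let e : Fin k ↪o ℕ := B.orderEmbOfCardLe hk
  have he : ∀ l, e l ∈ B := fun l => Finset.orderEmbOfCardLe_mem B hk l
  refine ⟨fun l => if hl : l < k then e ⟨l, hl⟩ else B.sup id + 1 + l, ?_, ?_⟩
  · intro a b hab
    by_cases hb : b < k
    · have ha : a < k := hab.trans hb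
      simp only [ha, hb, dif_pos]
      exact e.strictMono hab
    · by_cases ha : a < k
      · simp only [ha, hb, dif_pos, dif_neg, not_false_eq_true]
        have h1 : e ⟨a, ha⟩ ≤ B.sup id := Finset.le_sup (f := id) (he ⟨a, ha⟩)
        omega
      · simp only [ha, hb, dif_neg, not_false_eq_true]
        omega
  · intro l hl
    simp only [hl, dif_pos]
    exact he _

lemma Filt.smul_mem (Φ : Filt 𝕜 X A) {a : A} {g : X →L[𝕜] 𝕜} (hg : g ∈ Φ.F a) (l : ℕ) :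
    ((-1 : 𝕜) ^ l) • g ∈ Φ.F a := by
  rcases neg_one_pow_eq_or 𝕜 l with h | h
  · rw [h, one_smul]; exact hg
  · have e : ((-1 : 𝕜)) • g = -g := by ext y; simp
    rw [h, e]; exact Φ.neg a g hg

/-- (a): few vectors are large -/
theorem Path.few_large {Φ : Filt 𝕜 X A} {δ : ℝ} (hδ : 0 < δ) {h : ℕ → X} (P : Path Φ δ h) {k : ℕ}
    (hk : 0 < k) (hδk : (2 * k + 4) * δ ≤ 1) {N : X → ℝ}
    (hN2 : ∀ x φ, Φ.Adm k φ → ‖φ x‖ ≤ N x)
    (halt : ∀ j : ℕ → ℕ, StrictMono j → N (∑ l ∈ Finset.range k, ((-1 : 𝕜) ^ l) • h (j l)) ≤ 1)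
    (B : Finset ℕ) (hB : ∀ i ∈ B, 3 < ‖h i‖) : B.card < k := by
  by_contra hcon
  push Not at hcon
  obtain ⟨j, hj, hjB⟩ := exists_strictMono hcon
  choose g hg1 hg2 hg3 using fun l => Φ.peak (P.β (j l)) (P.β (j l + 1))
    (P.mono (Nat.le_succ _)) (P.v (j l)) (P.vV (j l))
  set x := ∑ l ∈ Finset.range k, ((-1 : 𝕜) ^ l) • h (j l) with hx
  set D : ℕ → ℝ := fun l => Metric.infDist (P.v (j l)) (Φ.S (P.β (j l)) : Set X) with hD
  have hk' : (0 : ℝ) < k := by exact_mod_cast hk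
  -- each functional
  have key : ∀ l, l < k → ‖(((-1 : 𝕜) ^ l) • g l) x - ((D l : ℝ) : 𝕜)‖ ≤ k * δ := by
    intro l hl
    have e1 : (((-1 : 𝕜) ^ l) • g l) x - ((D l : ℝ) : 𝕜) =
        ∑ l' ∈ Finset.range k, (((-1 : 𝕜) ^ l * (-1 : 𝕜) ^ l') * g l (h (j l')) -
          if l' = l then ((D l : ℝ) : 𝕜) else 0) := by
      rw [Finset.sum_sub_distrib, Finset.sum_ite_eq', if_pos (Finset.mem_range.mpr hl), hx,
        smul_apply, map_sum, Finset.smul_sum]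
      congr 1
      refine Finset.sum_congr rfl fun l' _ => ?_
      rw [map_smul, smul_eq_mul, smul_eq_mul, mul_assoc]
    rw [e1]
    refine (norm_sum_le _ _).trans ?_
    calc ∑ l' ∈ Finset.range k, ‖((-1 : 𝕜) ^ l * (-1 : 𝕜) ^ l') * g l (h (j l')) -
          (if l' = l then ((D l : ℝ) : 𝕜) else 0)‖ ≤ ∑ l' ∈ Finset.range k, δ := by
          refine Finset.sum_le_sum fun l' _ => ?_
          by_cases hll : l' = l
          · subst hll
            rw [if_pos rfl, ← mul_pow, neg_one_mul, neg_neg, one_pow, one_mul, ← hg3, ← map_sub]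
            refine ((g l').le_opNorm _).trans ?_
            calc ‖g l'‖ * ‖h (j l') - P.v (j l')‖ ≤ 1 * ‖h (j l') - P.v (j l')‖ :=
                  mul_le_mul_of_nonneg_right (Φ.norm_le _ _ (hg1 l')) (norm_nonneg _)
              _ = ‖h (j l') - P.v (j l')‖ := one_mul _
              _ ≤ δ := P.hv _
          · rw [if_neg hll, sub_zero, norm_mul, norm_mul, norm_pow, norm_pow, norm_neg, norm_one,
              one_pow, one_pow, one_mul, one_mul]
            rcases lt_or_gt_of_ne hll with hlt | hlt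
            · apply P.small_of_vanish (a := P.β (j l)) (P.mono (hj hlt)) (Φ.norm_le _ _ (hg1 l))
              exact hg2 l
            · apply P.null (j l')
              exact Φ.Fmono (P.mono (hj hlt)) (hg1 l)
      _ = k * δ := by rw [Finset.sum_const, Finset.card_range, nsmul_eq_mul]
  -- the admissible functional
  set φ : X →L[𝕜] 𝕜 := ((k : 𝕜)⁻¹) • ∑ l ∈ Finset.range k, ((-1 : 𝕜) ^ l) • g l with hφ
  have hadm : Φ.Adm k φ := by
    refine ⟨fun l => P.β (j l), P.mono.comp hj.monotone, fun l => ((-1 : 𝕜) ^ l) • g l, ?_, rfl⟩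
    intro l hl
    refine ⟨Φ.smul_mem (Φ.Fmono (P.mono (hj (Nat.lt_succ_self l))) (hg1 l)) l, ?_⟩
    intro y hy
    rw [smul_apply, hg2 l y hy, smul_zero]
  have h1 : ‖φ x‖ ≤ 1 := (hN2 x φ hadm).trans (halt j hj)
  have h2 : ‖(∑ l ∈ Finset.range k, (((-1 : 𝕜) ^ l) • g l) x)‖ ≤ k := by
    have e2 : φ x = (k : 𝕜)⁻¹ * ∑ l ∈ Finset.range k, (((-1 : 𝕜) ^ l) • g l) x := by
      rw [hφ, smul_apply, sum_apply, smul_eq_mul]
    rw [e2, norm_mul, norm_inv, RCLike.norm_natCast, inv_mul_le_iff₀ hk', mul_one] at h1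
    exact h1
  have h3 : ∑ l ∈ Finset.range k, D l ≤ k + k * (k * δ) := by
    have e3 : ((∑ l ∈ Finset.range k, D l : ℝ) : 𝕜) =
        ∑ l ∈ Finset.range k, (((-1 : 𝕜) ^ l) • g l) x -
        ∑ l ∈ Finset.range k, ((((-1 : 𝕜) ^ l) • g l) x - ((D l : ℝ) : 𝕜)) := by
      rw [Finset.sum_sub_distrib, sub_sub_cancel]
      push_cast
      rfl
    have e4 : ‖((∑ l ∈ Finset.range k, D l : ℝ) : 𝕜)‖ ≤ k + k * (k * δ) := by
      rw [e3]
      refine (norm_sub_le _ _).trans (add_le_add h2 ?_)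
      refine (norm_sum_le _ _).trans ?_
      calc ∑ l ∈ Finset.range k, ‖(((-1 : 𝕜) ^ l) • g l) x - ((D l : ℝ) : 𝕜)‖
          ≤ ∑ l ∈ Finset.range k, (k * δ) :=
            Finset.sum_le_sum fun l hl => key l (Finset.mem_range.mp hl)
        _ = k * (k * δ) := by rw [Finset.sum_const, Finset.card_range, nsmul_eq_mul]
    rw [RCLike.norm_ofReal] at e4
    exact (le_abs_self _).trans e4
  have h4 : ∀ l ∈ Finset.range k, (3 - 3 * δ) / 2 ≤ D l := by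
    intro l hl
    have h5 : 3 < ‖h (j l)‖ := hB _ (hjB l (Finset.mem_range.mp hl))
    have h6 : (‖P.v (j l)‖ - 2 * δ) / 2 ≤ D l := by
      apply Φ.le_infDist
      intro g' hg'
      have e5 : g' (P.v (j l)) = g' (h (j l)) - g' (h (j l) - P.v (j l)) := by
        rw [map_sub]; ring
      rw [e5]
      refine (norm_sub_le _ _).trans ?_
      have e6 := P.null (j l) g' hg'
      have e7 : ‖g' (h (j l) - P.v (j l))‖ ≤ δ := by
        refine (g'.le_opNorm _).trans ?_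
        calc ‖g'‖ * ‖h (j l) - P.v (j l)‖ ≤ 1 * ‖h (j l) - P.v (j l)‖ :=
              mul_le_mul_of_nonneg_right (Φ.norm_le _ _ hg') (norm_nonneg _)
          _ = ‖h (j l) - P.v (j l)‖ := one_mul _
          _ ≤ δ := P.hv _
      linarith
    have h7 : ‖h (j l)‖ - ‖P.v (j l)‖ ≤ δ := (norm_sub_norm_le _ _).trans (P.hv _)
    linarith
  have h8 : k * ((3 - 3 * δ) / 2) ≤ ∑ l ∈ Finset.range k, D l := by
    calc (k : ℝ) * ((3 - 3 * δ) / 2) = ∑ l ∈ Finset.range k, ((3 - 3 * δ) / 2) := by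
          rw [Finset.sum_const, Finset.card_range, nsmul_eq_mul]
      _ ≤ _ := Finset.sum_le_sum h4
  have h9 : k * ((3 - 3 * δ) / 2) ≤ k * (1 + k * δ) := by
    calc _ ≤ _ := h8
      _ ≤ _ := h3
      _ = _ := by ring
  have h10 := le_of_mul_le_mul_left h9 hk'
  nlinarith

/-- (b): the sum over good indices is small -/
theorem Path.sum_small {Φ : Filt 𝕜 X A} {δ : ℝ} (hδ : 0 < δ) {h : ℕ → X} (P : Path Φ δ h) {k : ℕ}
    (hk : 0 < k) (hδk : (2 * k + 4) * δ ≤ 1) {N : X → ℝ}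
    (hN3 : ∀ x (r : ℝ), 0 ≤ r → ‖x‖ / k ≤ r → (∀ φ, Φ.Adm k φ → ‖φ x‖ ≤ r) → N x ≤ r)
    (G : Finset ℕ) (hG : G ⊆ Finset.range (2 * k)) (hG3 : ∀ i ∈ G, ‖h i‖ ≤ 3) :
    N (∑ i ∈ G, h i) ≤ 10 := by
  classical
  have hk' : (0 : ℝ) < k := by exact_mod_cast hk
  have hGc : (G.card : ℝ) ≤ 2 * k := by
    have := Finset.card_le_card hG
    rw [Finset.card_range] at this
    exact_mod_cast this
  apply hN3 _ _ (by norm_num)
  · rw [div_le_iff₀ hk']
    calc ‖∑ i ∈ G, h i‖ ≤ ∑ i ∈ G, ‖h i‖ := norm_sum_le _ _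
      _ ≤ ∑ i ∈ G, (3 : ℝ) := Finset.sum_le_sum hG3
      _ = G.card * 3 := by rw [Finset.sum_const, nsmul_eq_mul]
      _ ≤ 10 * k := by nlinarith
  · rintro φ ⟨q, hq, g, hg, rfl⟩
    have e1 : (((k : 𝕜)⁻¹) • ∑ l ∈ Finset.range k, g l) (∑ i ∈ G, h i) =
        (k : 𝕜)⁻¹ * ∑ p ∈ G ×ˢ Finset.range k, g p.2 (h p.1) := by
      rw [smul_apply, sum_apply, smul_eq_mul, Finset.sum_product, Finset.sum_comm]
      congr 1
      refine Finset.sum_congr rfl fun l _ => ?_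
      rw [map_sum]
    rw [e1, norm_mul, norm_inv, RCLike.norm_natCast, inv_mul_le_iff₀ hk']
    set R := (G ×ˢ Finset.range k).filter (fun p => q p.2 < P.β (p.1 + 1) ∧ P.β p.1 < q (p.2 + 1))
      with hR
    have hRc : R.card ≤ 2 * k + k := by
      apply card_overlap hq P.mono
      intro p hp
      rw [hR, Finset.mem_filter, Finset.mem_product, Finset.mem_range] at hp
      exact ⟨Finset.mem_range.mp (hG hp.1.1), hp.1.2, hp.2.1, hp.2.2⟩
    have hRc' : (R.card : ℝ) ≤ 3 * k := by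
      have : (R.card : ℝ) ≤ ((2 * k + k : ℕ) : ℝ) := by exact_mod_cast hRc
      push_cast at this
      linarith
    calc ‖∑ p ∈ G ×ˢ Finset.range k, g p.2 (h p.1)‖
        ≤ ∑ p ∈ G ×ˢ Finset.range k, ‖g p.2 (h p.1)‖ := norm_sum_le _ _
      _ ≤ ∑ p ∈ G ×ˢ Finset.range k, (δ + if q p.2 < P.β (p.1 + 1) ∧ P.β p.1 < q (p.2 + 1)
            then 3 else 0) := by
          refine Finset.sum_le_sum fun p hp => ?_
          rw [Finset.mem_product, Finset.mem_range] at hp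
          obtain ⟨hg1, hg2⟩ := hg p.2 hp.2
          split_ifs with hif
          · have : ‖g p.2 (h p.1)‖ ≤ 3 := by
              refine ((g p.2).le_opNorm _).trans ?_
              calc ‖g p.2‖ * ‖h p.1‖ ≤ 1 * ‖h p.1‖ :=
                    mul_le_mul_of_nonneg_right (Φ.norm_le _ _ hg1) (norm_nonneg _)
                _ = ‖h p.1‖ := one_mul _
                _ ≤ 3 := hG3 _ hp.1
            linarith
          · rw [add_zero]
            rw [not_and_or, not_lt, not_lt] at hif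
            rcases hif with hif | hif
            · exact P.small_of_vanish hif (Φ.norm_le _ _ hg1) hg2
            · exact P.null _ _ (Φ.Fmono hif hg1)
      _ = (G.card * k) * δ + R.card * 3 := by
          rw [Finset.sum_add_distrib, Finset.sum_const, Finset.card_product, Finset.card_range,
            nsmul_eq_mul, ← Finset.sum_filter, Finset.sum_const, nsmul_eq_mul]
          push_cast
          ring
      _ ≤ k * 10 := by
          have h2 : (G.card * k : ℝ) * δ ≤ (2 * k * k) * δ := by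
            apply mul_le_mul_of_nonneg_right _ hδ.le
            exact mul_le_mul_of_nonneg_right hGc hk'.le
          have h3 : (2 * k * k : ℝ) * δ ≤ k := by nlinarith
          linarith

/-- **The core estimate.** -/
theorem Path.core {Φ : Filt 𝕜 X A} {δ : ℝ} (hδ : 0 < δ) {h : ℕ → X} (P : Path Φ δ h) {k : ℕ}
    (hk : 0 < k) (hδk : (2 * k + 4) * δ ≤ 1) {N : X → ℝ} {K : ℝ} (hK : 0 ≤ K)
    (hN2 : ∀ x φ, Φ.Adm k φ → ‖φ x‖ ≤ N x)
    (hN3 : ∀ x (r : ℝ), 0 ≤ r → ‖x‖ / k ≤ r → (∀ φ, Φ.Adm k φ → ‖φ x‖ ≤ r) → N x ≤ r)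
    (halt : ∀ j : ℕ → ℕ, StrictMono j → N (∑ l ∈ Finset.range k, ((-1 : 𝕜) ^ l) • h (j l)) ≤ 1)
    (hlow : ∀ G : Finset ℕ, G ⊆ Finset.range (2 * k) → (G.card : ℝ) ≤ K * N (∑ i ∈ G, h i)) :
    (k : ℝ) ≤ 10 * K := by
  classical
  set B := (Finset.range (2 * k)).filter (fun i => 3 < ‖h i‖) with hB
  set G := (Finset.range (2 * k)).filter (fun i => ¬ 3 < ‖h i‖) with hG
  have h1 : B.card < k := P.few_large hδ hk hδk hN2 halt B (by
    intro i hi
    exact (Finset.mem_filter.mp hi).2)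
  have h2 : B.card + G.card = 2 * k := by
    rw [hB, hG, Finset.card_filter_add_card_filter_not, Finset.card_range]
  have h3 : N (∑ i ∈ G, h i) ≤ 10 := P.sum_small hδ hk hδk hN3 G (Finset.filter_subset _ _) (by
    intro i hi
    exact not_lt.mp (Finset.mem_filter.mp hi).2)
  have h4 := hlow G (Finset.filter_subset _ _)
  have h5 : (k : ℝ) ≤ G.card := by
    have : k ≤ G.card := by omega
    exact_mod_cast this
  calc (k : ℝ) ≤ G.card := h5
    _ ≤ K * N (∑ i ∈ G, h i) := h4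
    _ ≤ K * 10 := mul_le_mul_of_nonneg_left h3 hK
    _ = 10 * K := mul_comm _ _

end

end Pool.Agent.Lib.MP_76005e_an
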