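import Mathlib
import Pool.Agent.Lib.MP_76005e_an.Core

/-!
# Construction of the filtration (MP_76005e_an, helper66)
-/

set_option autoImplicit false

namespace Pool.Agent.Lib.MP_76005e_an

universe u

open Cardinal

section

variable {𝕜 : Type} [RCLike 𝕜] {X : Type u} [NormedAddCommGroup X] [NormedSpace 𝕜 X]
  {A : Type u}

/-- a functional vanishing on a subspace and computing the distance -/
lemma exists_functional (S : Submodule 𝕜 X) (v : X) : ∃ g : X →L[𝕜] 𝕜, ‖g‖ ≤ 1 ∧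
    (∀ y ∈ S, g y = 0) ∧ g v = ((Metric.infDist v (S : Set X) : ℝ) : 𝕜) := by
  obtain ⟨g0, h1, h2⟩ := exists_dual_vector'' 𝕜 (Submodule.Quotient.mk v : X ⧸ S)
  let π : X →L[𝕜] X ⧸ S := S.mkQ.mkContinuous 1 (fun x => by
    rw [one_mul]
    exact Submodule.Quotient.norm_mk_le S x)
  have hπ : ‖π‖ ≤ 1 := LinearMap.mkContinuous_norm_le _ zero_le_one _
  refine ⟨g0.comp π, ?_, ?_, ?_⟩
  · exact (ContinuousLinearMap.opNorm_comp_le _ _).trans (mul_le_one₀ h1 (norm_nonneg _) hπ)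
  · intro y hy
    change g0 (Submodule.Quotient.mk y) = 0
    rw [(Submodule.Quotient.mk_eq_zero S).mpr hy, map_zero]
  · change g0 (Submodule.Quotient.mk v) = _
    rw [h2]
    congr 1
    exact QuotientAddGroup.norm_mk v

/-- countable-coefficient combinations -/
def VV (c : ℕ → 𝕜) (e : A → X) (s : Set A) : Set X :=
  Set.range fun p : List (s × ℕ) => (p.map fun q => c q.2 • e q.1).sum

lemma VV_mono (c : ℕ → 𝕜) (e : A → X) {s t : Set A} (h : s ⊆ t) : VV c e s ⊆ VV c e t := by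
  rintro _ ⟨p, rfl⟩
  refine ⟨p.map fun q => (⟨q.1.1, h q.1.2⟩, q.2), ?_⟩
  simp [List.map_map, Function.comp_def]

lemma VV_sub (c : ℕ → 𝕜) (e : A → X) (s : Set A) :
    VV c e s ⊆ Submodule.span 𝕜 (e '' s) := by
  rintro _ ⟨p, rfl⟩
  change (p.map fun q => c q.2 • e q.1).sum ∈ Submodule.span 𝕜 (e '' s)
  apply list_sum_mem
  intro x hx
  rw [List.mem_map] at hx
  obtain ⟨q, _, rfl⟩ := hx
  exact Submodule.smul_mem _ _ (Submodule.subset_span ⟨q.1.1, q.1.2, rfl⟩)

lemma VV_card (c : ℕ → 𝕜) (e : A → X) (s : Set A) : #(VV c e s) ≤ max ℵ₀ #s := by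
  refine Cardinal.mk_range_le.trans ?_
  refine (Cardinal.mk_list_le_max _).trans ?_
  rw [Cardinal.mk_prod, Cardinal.mk_nat, Cardinal.lift_id', Cardinal.lift_aleph0]
  refine max_le (le_max_left _ _) ?_
  refine (Cardinal.mul_le_max _ _).trans ?_
  rw [max_le_iff, max_le_iff]
  exact ⟨⟨le_max_right _ _, le_max_left _ _⟩, le_max_left _ _⟩

lemma VV_approx {c : ℕ → 𝕜} (hc : DenseRange c) (e : A → X) (s : Set A) :
    ∀ y ∈ Submodule.span 𝕜 (e '' s), ∀ ε : ℝ, 0 < ε → ∃ v ∈ VV c e s, ‖y - v‖ < ε := by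
  have key : ∀ y ∈ Submodule.span 𝕜 (e '' s), ∀ r : 𝕜, ∀ ε : ℝ, 0 < ε →
      ∃ v ∈ VV c e s, ‖r • y - v‖ < ε := by
    intro y hy
    induction hy using Submodule.span_induction with
    | mem y hy =>
      obtain ⟨b, hb, rfl⟩ := hy
      intro r ε hε
      obtain ⟨n, hn⟩ := hc.exists_dist_lt r (ε := ε / (‖e b‖ + 1)) (by positivity)
      refine ⟨c n • e b, ⟨[(⟨b, hb⟩, n)], by simp⟩, ?_⟩
      rw [← sub_smul, norm_smul]
      rw [dist_eq_norm, lt_div_iff₀ (by positivity)] at hn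
      calc ‖r - c n‖ * ‖e b‖ ≤ ‖r - c n‖ * (‖e b‖ + 1) :=
            mul_le_mul_of_nonneg_left (by linarith) (norm_nonneg _)
        _ < ε := hn
    | zero =>
      intro r ε hε
      exact ⟨0, ⟨[], by simp⟩, by simpa using hε⟩
    | add y z _ _ hy hz =>
      intro r ε hε
      obtain ⟨v, ⟨p, rfl⟩, hv⟩ := hy r (ε / 2) (by positivity)
      obtain ⟨w, ⟨p', rfl⟩, hw⟩ := hz r (ε / 2) (by positivity)
      refine ⟨_, ⟨p ++ p', rfl⟩, ?_⟩
      dsimp only at hv hw ⊢
      rw [List.map_append, List.sum_append, smul_add, add_sub_add_comm]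
      refine (norm_add_le _ _).trans_lt ?_
      linarith
    | smul a y _ hy =>
      intro r ε hε
      rw [smul_smul]
      exact hy (r * a) ε hε
  intro y hy ε hε
  have := key y hy 1 ε hε
  rwa [one_smul] at this

end

/-- a well-ordered index set of given cardinality with small initial segments -/
lemma exists_index (κ : Cardinal.{u}) (hκ : ℵ₀ ≤ κ) : ∃ (A : Type u) (_ : LinearOrder A),
    WellFoundedLT A ∧ NoMaxOrder A ∧ Nonempty A ∧ #A = κ ∧ ∀ a : A, #(Set.Iio a) < κ := by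
  refine ⟨κ.ord.ToType, inferInstance, inferInstance, Cardinal.noMaxOrder hκ, ?_,
    Cardinal.mk_ord_toType κ, fun a => by simpa using mk_Iio_lt a⟩
  rw [← Cardinal.mk_ne_zero_iff, Cardinal.mk_ord_toType]
  exact (Cardinal.aleph0_pos.trans_le hκ).ne'

variable {𝕜 : Type} [RCLike 𝕜] {X : Type u} [NormedAddCommGroup X] [NormedSpace 𝕜 X]

/-- **Existence of the filtration.** -/
theorem exists_filt {D : Set X} (hD : Dense D) {κ : Cardinal.{u}} (hκ : ℵ₀ < κ) (hDκ : #D = κ) :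
    ∃ (A : Type u) (_ : LinearOrder A) (Φ : Filt 𝕜 X A), Nonempty A ∧ ∀ a, #(Φ.F a) < κ := by
  obtain ⟨A, iA, iW, iM, iN, hA, hseg⟩ := exists_index κ hκ.le
  obtain ⟨e0⟩ := Cardinal.eq.mp (hA.trans hDκ.symm)
  let e : A → X := fun a => (e0 a : X)
  have he : ∀ d ∈ D, ∃ a, e a = d := fun d hd => ⟨e0.symm ⟨d, hd⟩, by simp [e]⟩
  obtain ⟨c, hc⟩ := TopologicalSpace.exists_dense_seq 𝕜
  choose p hp1 hp2 hp3 using fun (q : A) (v : X) =>
    exists_functional (Submodule.span 𝕜 (e '' Set.Iio q)) v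
  have hiic : ∀ a : A, #(Set.Iic a) < κ := by
    intro a
    have : Set.Iic a = insert a (Set.Iio a) := by
      ext b
      simp [le_iff_lt_or_eq, or_comm]
    rw [this]
    refine (Cardinal.mk_insert_le).trans_lt ?_
    exact Cardinal.add_lt_of_lt hκ.le (hseg a) (Cardinal.one_lt_aleph0.trans hκ)
  obtain ⟨bot, hbot⟩ : ∃ b : A, ∀ a, b ≤ a := by
    obtain ⟨a0⟩ := iN
    obtain ⟨b, _, hb⟩ := WellFounded.has_min (wellFounded_lt (α := A)) Set.univ ⟨a0, trivial⟩
    exact ⟨b, fun a => not_lt.mp (hb a trivial)⟩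
  have hSbot : Submodule.span 𝕜 (e '' Set.Iio bot) = ⊥ := by
    have : Set.Iio bot = ∅ := by
      ext b
      simp [hbot b]
    rw [this, Set.image_empty, Submodule.span_empty]
  let Φ : Filt 𝕜 X A :=
    { S := fun a => Submodule.span 𝕜 (e '' Set.Iio a)
      V := fun a => VV c e (Set.Iio a)
      F := fun a => {g | ∃ q ≤ a, ∃ v ∈ VV c e (Set.Iio a), g = p q v ∨ g = -p q v}
      Smono := fun a b hab => Submodule.span_mono (Set.image_mono (Set.Iio_subset_Iio hab))
      Fmono := by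
        rintro a b hab g ⟨q, hq, v, hv, hg⟩
        exact ⟨q, hq.trans hab, v, VV_mono c e (Set.Iio_subset_Iio hab) hv, hg⟩
      VS := fun a => VV_sub c e _
      dense := by
        intro x ε hε a
        obtain ⟨d, hd, hxd⟩ := Metric.mem_closure_iff.mp (hD x) (ε / 2) (by positivity)
        obtain ⟨d', rfl⟩ := he d hd
        obtain ⟨b, hb⟩ := exists_gt (max a d')
        obtain ⟨v, hv, hdv⟩ := VV_approx hc e (Set.Iio b) (e d')
          (Submodule.subset_span ⟨d', (le_max_right a d').trans_lt hb, rfl⟩) (ε / 2)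
          (by positivity)
        refine ⟨b, (le_max_left a d').trans hb.le, v, hv, ?_⟩
        rw [dist_eq_norm] at hxd
        calc ‖x - v‖ ≤ ‖x - e d'‖ + ‖e d' - v‖ := norm_sub_le_norm_sub_add_norm_sub _ _ _
          _ < ε := by linarith
      approx := fun a => VV_approx hc e (Set.Iio a)
      norm_le := by
        rintro a g ⟨q, _, v, _, rfl | rfl⟩
        · exact hp1 q v
        · rw [norm_neg]
          exact hp1 q v
      neg := by
        rintro a g ⟨q, hq, v, hv, rfl | rfl⟩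
        · exact ⟨q, hq, v, hv, Or.inr rfl⟩
        · exact ⟨q, hq, v, hv, Or.inl (neg_neg _)⟩
      norming := by
        intro a v hv
        refine ⟨p bot v, ⟨bot, hbot a, v, hv, Or.inl rfl⟩, ?_⟩
        rw [hp3, hSbot, Submodule.bot_coe, Metric.infDist_singleton, dist_zero_right]
      peak := by
        intro q a hqa v hv
        exact ⟨p q v, ⟨q, hqa, v, hv, Or.inl rfl⟩, hp2 q v, hp3 q v⟩ }
  refine ⟨A, iA, Φ, iN, fun a => ?_⟩
  let W := VV c e (Set.Iio a)
  have hW : #W < κ := (VV_card c e _).trans_lt (max_lt hκ (hseg a))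
  have hsub : Φ.F a ⊆ Set.range fun z : (Set.Iic a × W) × Bool =>
      if z.2 then p z.1.1 z.1.2 else -p z.1.1 z.1.2 := by
    rintro g ⟨q, hq, v, hv, rfl | rfl⟩
    · exact ⟨((⟨q, hq⟩, ⟨v, hv⟩), true), by simp⟩
    · exact ⟨((⟨q, hq⟩, ⟨v, hv⟩), false), by simp⟩
  refine (Cardinal.mk_le_mk_of_subset hsub).trans_lt ?_
  refine (Cardinal.mk_range_le).trans_lt ?_
  rw [Cardinal.mk_prod, Cardinal.lift_uzero, Cardinal.mk_prod, Cardinal.lift_id, Cardinal.lift_id]
  refine Cardinal.mul_lt_of_lt hκ.le (Cardinal.mul_lt_of_lt hκ.le (hiic a) hW) ?_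
  refine lt_trans ?_ hκ
  rw [Cardinal.lift_lt_aleph0]
  exact Cardinal.lt_aleph0_of_finite _

end Pool.Agent.Lib.MP_76005e_an
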