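import Mathlib
import Pool.Agent.Lib.MP_76005e_an.Core

/-!
# The summing tree and the choice of the path (MP_76005e_an, helper66)
-/

set_option autoImplicit false

namespace Pool.Agent.Lib.MP_76005e_an

universe u v w w'

section tree

variable {𝕜 : Type v} [RCLike 𝕜] {X : Type u} [NormedAddCommGroup X] [NormedSpace 𝕜 X]
  {J : Type w} (f : List J → X →L[𝕜] 𝕜) (x : List J → X)

/-- almost biorthogonality -/
def ABio {I : Type*} (ε : ℝ) (f : I → X →L[𝕜] 𝕜) (x : I → X) : Prop :=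
  (∀ t, f t (x t) = 1) ∧ ∀ s t, s ≠ t → ‖f s (x t)‖ ≤ ε

/-- sum of the coordinate functionals along the initial segments -/
noncomputable def FF : List J → X →L[𝕜] 𝕜
  | [] => 0
  | (j :: t) => f (j :: t) + FF t

open Classical in
/-- the ideal value of `FF f s (x t)` -/
noncomputable def ind (𝕜 : Type v) [RCLike 𝕜] (s t : List J) : 𝕜 :=
  if t ≠ [] ∧ t <:+ s then 1 else 0

lemma FF_apply {ε : ℝ} (hε : 0 ≤ ε) (hfx : ABio ε f x) (s t : List J) :
    ‖FF f s (x t) - ind 𝕜 s t‖ ≤ s.length * ε := by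
  induction s with
  | nil =>
    have : ¬ (t ≠ [] ∧ t <:+ []) := by
      rintro ⟨h1, h2⟩
      exact h1 (List.suffix_nil.mp h2)
    rw [ind, if_neg this]
    simp [FF]
  | cons j s ih =>
    change ‖f (j :: s) (x t) + FF f s (x t) - _‖ ≤ _
    rw [List.length_cons]
    push_cast
    by_cases h1 : j :: s = t
    · subst h1
      have h2 : ¬ (j :: s <:+ s) := by
        intro h
        have := h.length_le
        simp at this
      have e1 : ind 𝕜 (j :: s) (j :: s) = 1 := by simp [ind]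
      have e2 : ind 𝕜 s (j :: s) = 0 := by simp [ind, h2]
      rw [e2, sub_zero] at ih
      rw [hfx.1, e1, add_sub_cancel_left]
      linarith
    · have h3 : t ≠ j :: s := fun h => h1 h.symm
      have e1 : ind 𝕜 (j :: s) t = ind 𝕜 s t := by
        have e0 : (t ≠ [] ∧ t <:+ j :: s) ↔ (t ≠ [] ∧ t <:+ s) := by
          rw [List.suffix_cons_iff]
          simp [h3]
        by_cases h : (t ≠ [] ∧ t <:+ s)
        · rw [ind, ind, if_pos (e0.mpr h), if_pos h]
        · rw [ind, ind, if_neg (fun h' => h (e0.mp h')), if_neg h]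
      rw [e1, add_sub_assoc]
      refine (norm_add_le _ _).trans ?_
      linarith [hfx.2 _ _ h1]

lemma norm_FF_le {B : ℝ} (hB : ∀ t, ‖f t‖ ≤ B) (s : List J) : ‖FF f s‖ ≤ s.length * B := by
  induction s with
  | nil => simp [FF]
  | cons j s ih =>
    change ‖f (j :: s) + FF f s‖ ≤ _
    refine (norm_add_le _ _).trans ?_
    rw [List.length_cons]
    push_cast
    linarith [hB (j :: s)]

/-- comparison with the ideal values -/
lemma FF_sum_approx {ε : ℝ} (hε : 0 ≤ ε) (hfx : ABio ε f x) {ι : Type*} (R : Finset ι)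
    (c : ι → 𝕜) (hc : ∀ j, ‖c j‖ ≤ 1) (t : ι → List J) (s : List J) :
    ‖FF f s (∑ j ∈ R, c j • x (t j)) - ∑ j ∈ R, c j * ind 𝕜 s (t j)‖ ≤
      R.card * (s.length * ε) := by
  rw [map_sum, ← Finset.sum_sub_distrib]
  refine (norm_sum_le _ _).trans ?_
  calc ∑ j ∈ R, ‖FF f s (c j • x (t j)) - c j * ind 𝕜 s (t j)‖
      ≤ ∑ j ∈ R, (s.length * ε) := by
        refine Finset.sum_le_sum fun j _ => ?_
        rw [map_smul, smul_eq_mul, ← mul_sub, norm_mul]
        calc ‖c j‖ * ‖FF f s (x (t j)) - ind 𝕜 s (t j)‖ ≤ 1 * (s.length * ε) :=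
              mul_le_mul (hc j) (FF_apply f x hε hfx s (t j)) (norm_nonneg _) zero_le_one
          _ = _ := one_mul _
    _ = _ := by rw [Finset.sum_const, nsmul_eq_mul]

lemma alt_sum_le (p : ℕ → Prop) [DecidablePred p] (hp : ∀ a b, a ≤ b → p b → p a) (k : ℕ) :
    ‖∑ l ∈ Finset.range k, (-1 : 𝕜) ^ l * (if p l then 1 else 0)‖ ≤ 1 := by
  induction k with
  | zero => simp
  | succ k ih =>
    by_cases hk : p k
    · have : ∑ l ∈ Finset.range (k + 1), (-1 : 𝕜) ^ l * (if p l then 1 else 0) =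
          ∑ l ∈ Finset.range (k + 1), (-1 : 𝕜) ^ l := by
        refine Finset.sum_congr rfl fun l hl => ?_
        rw [if_pos (hp l k (Nat.lt_succ_iff.mp (Finset.mem_range.mp hl)) hk), mul_one]
      rw [this, neg_one_geom_sum]
      split_ifs <;> simp
    · rw [Finset.sum_range_succ, if_neg hk, mul_zero, add_zero]
      exact ih

/-- a branch -/
structure Branch (t : ℕ → List J) (c : ℕ → J) : Prop where
  zero : t 0 = []
  succ : ∀ i, t (i + 1) = c i :: t i

lemma Branch.suffix {t : ℕ → List J} {c : ℕ → J} (h : Branch t c) {a b : ℕ} (hab : a ≤ b) :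
    t a <:+ t b := by
  induction b, hab using Nat.le_induction with
  | base => exact List.suffix_refl _
  | succ b _ ih =>
    rw [h.succ]
    exact ih.trans (List.suffix_cons _ _)

lemma Branch.ne_nil {t : ℕ → List J} {c : ℕ → J} (h : Branch t c) (i : ℕ) : t (i + 1) ≠ [] := by
  rw [h.succ]
  exact List.cons_ne_nil _ _

lemma Branch.length {t : ℕ → List J} {c : ℕ → J} (h : Branch t c) (i : ℕ) :
    (t i).length = i := by
  induction i with
  | zero => rw [h.zero]; rfl
  | succ i ih => rw [h.succ, List.length_cons, ih]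

/-- (u2) alternating sums -/
lemma FF_alt {ε : ℝ} (hε : 0 ≤ ε) (hfx : ABio ε f x) {t : ℕ → List J} {c : ℕ → J}
    (h : Branch t c) {j : ℕ → ℕ} (hj : StrictMono j) (k : ℕ) (s : List J) :
    ‖FF f s (∑ l ∈ Finset.range k, ((-1 : 𝕜) ^ l) • x (t (j l + 1)))‖ ≤
      1 + k * (s.length * ε) := by
  classical
  have h1 := FF_sum_approx f x hε hfx (Finset.range k) (fun l => (-1 : 𝕜) ^ l)
    (fun l => by simp) (fun l => t (j l + 1)) s
  have e : ∑ l ∈ Finset.range k, (-1 : 𝕜) ^ l * ind 𝕜 s (t (j l + 1)) =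
      ∑ l ∈ Finset.range k, (-1 : 𝕜) ^ l * (if t (j l + 1) <:+ s then 1 else 0) := by
    refine Finset.sum_congr rfl fun l _ => ?_
    simp [ind, h.ne_nil]
  have h2 : ‖∑ l ∈ Finset.range k, (-1 : 𝕜) ^ l * ind 𝕜 s (t (j l + 1))‖ ≤ 1 := by
    rw [e]
    apply alt_sum_le (fun l => t (j l + 1) <:+ s)
    intro a b hab hb
    exact (h.suffix (Nat.succ_le_succ (hj.monotone hab))).trans hb
  rw [Finset.card_range] at h1
  have h3 := norm_le_norm_add_norm_sub' (FF f s (∑ l ∈ Finset.range k, ((-1 : 𝕜) ^ l) •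
    x (t (j l + 1)))) (∑ l ∈ Finset.range k, (-1 : 𝕜) ^ l * ind 𝕜 s (t (j l + 1)))
  linarith

/-- (u3) sums along the branch -/
lemma FF_sum {ε : ℝ} (hε : 0 ≤ ε) (hfx : ABio ε f x) {t : ℕ → List J} {c : ℕ → J}
    (h : Branch t c) {m : ℕ} {G : Finset ℕ} (hG : G ⊆ Finset.range m) :
    (G.card : ℝ) - G.card * (m * ε) ≤ ‖FF f (t m) (∑ i ∈ G, x (t (i + 1)))‖ := by
  have h1 := FF_sum_approx f x hε hfx G (fun _ => (1 : 𝕜))
    (fun l => by simp) (fun i => t (i + 1)) (t m)
  have e : ∑ i ∈ G, (1 : 𝕜) * ind 𝕜 (t m) (t (i + 1)) = (G.card : 𝕜) := by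
    have : ∀ i ∈ G, (1 : 𝕜) * ind 𝕜 (t m) (t (i + 1)) = 1 := by
      intro i hi
      rw [ind, if_pos, one_mul]
      exact ⟨h.ne_nil i, h.suffix (Finset.mem_range.mp (hG hi))⟩
    rw [Finset.sum_congr rfl this]
    simp
  rw [e, h.length] at h1
  simp only [one_smul] at h1
  have h3 := norm_le_norm_add_norm_sub ((FF f (t m) (∑ i ∈ G, x (t (i + 1))))) (G.card : 𝕜)
  rw [RCLike.norm_natCast] at h3
  linarith

/-- (u1) siblings -/
lemma FF_siblings {ε : ℝ} (hε : 0 ≤ ε) (hfx : ABio ε f x) (t s : List J) (R : Finset J)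
    (c : J → 𝕜) (hc : ∀ j, ‖c j‖ ≤ 1) :
    ‖FF f s (∑ j ∈ R, c j • x (j :: t))‖ ≤ 1 + R.card * (s.length * ε) := by
  classical
  have h1 := FF_sum_approx f x hε hfx R c hc (fun j => j :: t) s
  have h2 : ‖∑ j ∈ R, c j * ind 𝕜 s (j :: t)‖ ≤ 1 := by
    by_cases h : ∃ j0 ∈ R, (j0 :: t) <:+ s
    · obtain ⟨j0, hj0, hs⟩ := h
      rw [Finset.sum_eq_single_of_mem j0 hj0]
      · have : ind 𝕜 s (j0 :: t) = 1 := by simp [ind, hs]
        rw [this, mul_one]
        exact hc _
      · intro j _ hne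
        have hns : ¬ (j :: t <:+ s) := by
          intro hjs
          have h1 := List.suffix_of_suffix_length_le hjs hs (by simp)
          have h2 : j :: t = j0 :: t := h1.eq_of_length (by simp)
          exact hne (List.cons.inj h2).1
        simp [ind, hns]
    · push Not at h
      rw [Finset.sum_eq_zero, norm_zero]
      · exact zero_le_one
      · intro j hj
        simp [ind, h j hj]
  have h3 := norm_le_norm_add_norm_sub' (FF f s (∑ j ∈ R, c j • x (j :: t)))
    (∑ j ∈ R, c j * ind 𝕜 s (j :: t))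
  linarith

end tree

end Pool.Agent.Lib.MP_76005e_an
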