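import Mathlib
import Pool.Agent.Lib.MP_76005e_an.Tree

/-!
# Existence of the path (MP_76005e_an, helper66)
-/

set_option autoImplicit false

namespace Pool.Agent.Lib.MP_76005e_an

universe u

open Cardinal

variable {𝕜 : Type} [RCLike 𝕜] {X : Type u} [NormedAddCommGroup X] [NormedSpace 𝕜 X]
  {A : Type u} [LinearOrder A] {J : Type u}

/-- a functional is small on all but finitely many siblings -/
lemma finite_large {N : X → ℝ} {k : ℕ} (hN : ∀ x, ‖x‖ ≤ k * N x) {v : J → X} {M : ℕ}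
    (hM0 : 0 < M) {δ : ℝ} (hM : (k : ℝ) ≤ M * δ)
    (hv : ∀ (R : Finset J) (c : J → 𝕜), R.card = M → (∀ j, ‖c j‖ ≤ 1) →
      N (∑ j ∈ R, c j • v j) ≤ 1) (g : X →L[𝕜] 𝕜) (hg : ‖g‖ ≤ 1) :
    {j : J | δ < ‖g (v j)‖}.Finite := by
  classical
  by_contra hcon
  have hinf : {j : J | δ < ‖g (v j)‖}.Infinite := hcon
  obtain ⟨R, hR, hRc⟩ := hinf.exists_subset_card_eq M
  let c : J → 𝕜 := fun j => if g (v j) = 0 then 0 else ((‖g (v j)‖ : ℝ) : 𝕜) / g (v j)
  have hc : ∀ j, ‖c j‖ ≤ 1 := by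
    intro j
    by_cases h : g (v j) = 0
    · simp [c, h]
    · simp only [c, h, if_false]
      rw [norm_div, RCLike.norm_ofReal, abs_norm, div_self]
      exact norm_ne_zero_iff.mpr h
  have hcg : ∀ j, c j * g (v j) = ((‖g (v j)‖ : ℝ) : 𝕜) := by
    intro j
    by_cases h : g (v j) = 0
    · simp [c, h]
    · simp only [c, h, if_false]
      rw [div_mul_cancel₀ _ h]
  have h1 : g (∑ j ∈ R, c j • v j) = ((∑ j ∈ R, ‖g (v j)‖ : ℝ) : 𝕜) := by
    rw [map_sum]
    push_cast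
    refine Finset.sum_congr rfl fun j _ => ?_
    rw [map_smul, smul_eq_mul, hcg]
  have h2 : (∑ j ∈ R, ‖g (v j)‖ : ℝ) ≤ k := by
    have h3 : ‖g (∑ j ∈ R, c j • v j)‖ ≤ k := by
      refine (g.le_opNorm _).trans ?_
      calc ‖g‖ * ‖∑ j ∈ R, c j • v j‖ ≤ 1 * (k * 1) := by
            refine mul_le_mul hg ((hN _).trans ?_) (norm_nonneg _) zero_le_one
            exact mul_le_mul_of_nonneg_left (hv R c hRc hc) (Nat.cast_nonneg _)
        _ = k := by ring
    rw [h1, RCLike.norm_ofReal] at h3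
    exact (le_abs_self _).trans h3
  have h4 : (M : ℝ) * δ < ∑ j ∈ R, ‖g (v j)‖ := by
    have h5 : ∑ j ∈ R, δ < ∑ j ∈ R, ‖g (v j)‖ := by
      apply Finset.sum_lt_sum_of_nonempty
      · rw [← Finset.card_pos, hRc]
        exact hM0
      · intro j hj
        exact hR hj
    rwa [Finset.sum_const, hRc, nsmul_eq_mul] at h5
  linarith

/-- a sibling on which all functionals of a small set are small -/
lemma exists_good (hJ : ℵ₀ < #J) {F : Set (X →L[𝕜] 𝕜)} (hF : #F < #J) {v : J → X} {δ : ℝ}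
    (hfin : ∀ g ∈ F, {j : J | δ < ‖g (v j)‖}.Finite) : ∃ j, ∀ g ∈ F, ‖g (v j)‖ ≤ δ := by
  by_contra hcon
  push Not at hcon
  have h1 : (Set.univ : Set J) ⊆ ⋃ g : F, {j : J | δ < ‖(g : X →L[𝕜] 𝕜) (v j)‖} := by
    intro j _
    obtain ⟨g, hg, hj⟩ := hcon j
    exact Set.mem_iUnion.mpr ⟨⟨g, hg⟩, hj⟩
  have h2 : #J ≤ #F * ℵ₀ := by
    calc #J = #(Set.univ : Set J) := Cardinal.mk_univ.symm
      _ ≤ #(⋃ g : F, {j : J | δ < ‖(g : X →L[𝕜] 𝕜) (v j)‖} : Set J) := Cardinal.mk_le_mk_of_subset h1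
      _ ≤ Cardinal.sum fun g : F => #({j : J | δ < ‖(g : X →L[𝕜] 𝕜) (v j)‖} : Set J) :=
          Cardinal.mk_iUnion_le_sum_mk
      _ ≤ Cardinal.sum fun _ : F => ℵ₀ := by
          apply Cardinal.sum_le_sum
          intro g
          have := (hfin g g.2).to_subtype
          exact (Cardinal.lt_aleph0_of_finite _).le
      _ = #F * ℵ₀ := by rw [Cardinal.sum_const']
  have h3 : #F * ℵ₀ < #J := Cardinal.mul_lt_of_lt hJ.le hF hJ
  exact absurd h2 (not_le.mpr h3)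

/-- existence of a path along a branch -/
theorem exists_path [Nonempty A] (Φ : Filt 𝕜 X A) (hJ : ℵ₀ < #J) (hF : ∀ a, #(Φ.F a) < #J)
    {N : X → ℝ} {k : ℕ} (hN : ∀ x, ‖x‖ ≤ k * N x) {u : List J → X} {M : ℕ}
    (hM0 : 0 < M) {δ : ℝ} (hδ : 0 < δ) (hM : (k : ℝ) ≤ M * δ)
    (hu : ∀ (t : List J) (R : Finset J) (c : J → 𝕜), R.card = M → (∀ j, ‖c j‖ ≤ 1) →
      N (∑ j ∈ R, c j • u (j :: t)) ≤ 1) :
    ∃ (t : ℕ → List J) (c : ℕ → J), Branch t c ∧ Nonempty (Path Φ δ (fun i => u (t (i + 1)))) := by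
  have key : ∀ (t : List J) (a : A), ∃ (j : J) (b : A) (v : X), a ≤ b ∧ v ∈ Φ.V b ∧
      ‖u (j :: t) - v‖ < δ ∧ ∀ g ∈ Φ.F a, ‖g (u (j :: t))‖ ≤ δ := by
    intro t a
    obtain ⟨j, hj⟩ := exists_good (v := fun j => u (j :: t)) hJ (hF a) (δ := δ)
      (fun g hg => finite_large hN hM0 hM (hu t) g (Φ.norm_le a g hg))
    obtain ⟨b, hab, v, hv, huv⟩ := Φ.dense (u (j :: t)) δ hδ a
    exact ⟨j, b, v, hab, hv, huv, hj⟩
  choose jj bb vv h1 h2 h3 h4 using key
  obtain ⟨a0⟩ := (inferInstance : Nonempty A)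
  let seq : ℕ → List J × A := fun n => Nat.rec ([], a0)
    (fun _ p => (jj p.1 p.2 :: p.1, bb p.1 p.2)) n
  have hs : ∀ n, seq (n + 1) = (jj (seq n).1 (seq n).2 :: (seq n).1, bb (seq n).1 (seq n).2) :=
    fun n => rfl
  refine ⟨fun i => (seq i).1, fun i => jj (seq i).1 (seq i).2, ⟨rfl, fun i => ?_⟩, ⟨?_⟩⟩
  · rw [hs]
  · exact
      { β := fun i => (seq i).2
        mono := by
          apply monotone_nat_of_le_succ
          intro n
          rw [hs]
          exact h1 _ _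
        v := fun i => vv (seq i).1 (seq i).2
        null := by
          intro i g hg
          have := h4 (seq i).1 (seq i).2 g hg
          change ‖g (u (seq (i + 1)).1)‖ ≤ δ
          rw [hs]
          exact this
        vV := by
          intro i
          change vv (seq i).1 (seq i).2 ∈ Φ.V (seq (i + 1)).2
          rw [hs]
          exact h2 _ _
        hv := by
          intro i
          change ‖u (seq (i + 1)).1 - vv (seq i).1 (seq i).2‖ ≤ δ
          rw [hs]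
          exact (h3 _ _).le }

end Pool.Agent.Lib.MP_76005e_an
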