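import Mathlib

/-!
# Renormings by families of functionals (MP_76005e_an, helper66)
-/

set_option autoImplicit false

namespace Pool.Agent.Lib.MP_76005e_an

universe u v w

open scoped ENNReal

/-- a copy of the space -/
def Cp (X : Type u) : Type u := X

/-- the identity -/
def toCp {X : Type u} (x : X) : Cp X := x

/-- the identity -/
def ofCp {X : Type u} (x : Cp X) : X := x

section

variable {𝕜 : Type v} [RCLike 𝕜] {X : Type u} [NormedAddCommGroup X] [NormedSpace 𝕜 X]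

instance : AddCommGroup (Cp X) := inferInstanceAs (AddCommGroup X)
instance : Module 𝕜 (Cp X) := inferInstanceAs (Module 𝕜 X)

variable {S : Type w} (C : ℝ) (φ : S → X →L[𝕜] 𝕜) (B : ℝ) (hB : ∀ s, ‖φ s‖ ≤ B)

/-- the evaluation at all functionals -/
noncomputable def ev (hB : ∀ s, ‖φ s‖ ≤ B) : X →ₗ[𝕜] lp (fun _ : S => 𝕜) ∞ where
  toFun x := ⟨fun s => φ s x, by
    apply memℓp_infty
    refine ⟨B * ‖x‖, ?_⟩
    rintro _ ⟨s, rfl⟩
    exact ((φ s).le_opNorm x).trans (mul_le_mul_of_nonneg_right (hB s) (norm_nonneg _))⟩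
  map_add' x y := by
    ext s
    exact map_add (φ s) x y
  map_smul' c x := by
    ext s
    exact map_smul (φ s) c x

lemma ev_apply (x : X) (s : S) : (ev φ B hB x : S → 𝕜) s = φ s x := rfl

/-- the embedding defining the new norm -/
noncomputable def emb (hB : ∀ s, ‖φ s‖ ≤ B) : Cp X →ₗ[𝕜] X × lp (fun _ : S => 𝕜) ∞ where
  toFun x := (((C⁻¹ : ℝ) : 𝕜) • ofCp x, ev φ B hB (ofCp x))
  map_add' x y := by
    ext1
    · exact smul_add _ (ofCp x) (ofCp y)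
    · exact (ev φ B hB).map_add (ofCp x) (ofCp y)
  map_smul' c x := by
    ext1
    · change ((C⁻¹ : ℝ) : 𝕜) • (c • ofCp x) = c • (((C⁻¹ : ℝ) : 𝕜) • ofCp x)
      rw [smul_smul, mul_comm, ← smul_smul]
    · exact (ev φ B hB).map_smul c (ofCp x)

lemma emb_injective (hC : 0 < C) : Function.Injective (emb C φ B hB) := by
  intro x y h
  have h1 : (((C⁻¹ : ℝ) : 𝕜) • ofCp x) = ((C⁻¹ : ℝ) : 𝕜) • ofCp y := congrArg Prod.fst h
  have hc : ((C⁻¹ : ℝ) : 𝕜) ≠ 0 := by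
    rw [ne_eq, RCLike.ofReal_eq_zero]
    exact (inv_pos.mpr hC).ne'
  exact smul_right_injective X hc h1

end

/-- **Renorming.** An equivalent norm `max (‖x‖ / C) (sup_s |φ_s(x)|)`. -/
theorem exists_renorm {𝕜 : Type v} [RCLike 𝕜] {X : Type u} [NormedAddCommGroup X] [NormedSpace 𝕜 X]
    [CompleteSpace X] {S : Type w} {C : ℝ} (hC : 0 < C) (φ : S → X →L[𝕜] 𝕜) {B : ℝ}
    (hB : ∀ s, ‖φ s‖ ≤ B) :
    ∃ (Y : Type u) (_ : NormedAddCommGroup Y) (_ : NormedSpace 𝕜 Y) (_ : CompleteSpace Y)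
      (e : X ≃L[𝕜] Y), (∀ x, ‖x‖ / C ≤ ‖e x‖) ∧ (∀ s x, ‖φ s x‖ ≤ ‖e x‖) ∧
        ∀ x (r : ℝ), 0 ≤ r → ‖x‖ / C ≤ r → (∀ s, ‖φ s x‖ ≤ r) → ‖e x‖ ≤ r := by
  let i1 : NormedAddCommGroup (Cp X) :=
    NormedAddCommGroup.induced (Cp X) (X × lp (fun _ : S => 𝕜) ∞) (emb C φ B hB)
      (emb_injective C φ B hB hC)
  let i2 : NormedSpace 𝕜 (Cp X) :=
    NormedSpace.induced 𝕜 (Cp X) (X × lp (fun _ : S => 𝕜) ∞) (emb C φ B hB)
  have hnorm : ∀ x : X, ‖toCp x‖ = max (‖((C⁻¹ : ℝ) : 𝕜) • x‖) ‖ev φ B hB x‖ := by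
    intro x
    change ‖emb C φ B hB (toCp x)‖ = _
    rw [Prod.norm_def]
    rfl
  have hn1 : ∀ x : X, ‖((C⁻¹ : ℝ) : 𝕜) • x‖ = ‖x‖ / C := by
    intro x
    rw [norm_smul, RCLike.norm_ofReal, abs_of_pos (inv_pos.mpr hC), div_eq_inv_mul]
  have h1 : ∀ x : X, ‖x‖ / C ≤ ‖toCp x‖ := by
    intro x
    rw [hnorm, ← hn1]
    exact le_max_left _ _
  have h2 : ∀ s, ∀ x : X, ‖φ s x‖ ≤ ‖toCp x‖ := by
    intro s x
    rw [hnorm]
    refine le_trans ?_ (le_max_right _ _)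
    exact lp.norm_apply_le_norm ENNReal.top_ne_zero (ev φ B hB x) s
  have h3 : ∀ x : X, ∀ r : ℝ, 0 ≤ r → ‖x‖ / C ≤ r → (∀ s, ‖φ s x‖ ≤ r) →
      ‖toCp x‖ ≤ r := by
    intro x r hr hx hs
    rw [hnorm, hn1]
    refine max_le hx ?_
    exact lp.norm_le_of_forall_le hr hs
  let e0 : X ≃ₗ[𝕜] Cp X :=
    { toFun := toCp
      invFun := ofCp
      map_add' := fun _ _ => rfl
      map_smul' := fun _ _ => rfl
      left_inv := fun _ => rfl
      right_inv := fun _ => rfl }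
  have hB0 : 0 ≤ max B C⁻¹ := le_trans (inv_pos.mpr hC).le (le_max_right _ _)
  let e : X ≃L[𝕜] Cp X := e0.toContinuousLinearEquivOfBounds (max B C⁻¹) C (by
    intro x
    apply h3 x _ (mul_nonneg hB0 (norm_nonneg _))
    · rw [div_eq_inv_mul]
      exact mul_le_mul_of_nonneg_right (le_max_right _ _) (norm_nonneg _)
    · intro s
      exact ((φ s).le_opNorm x).trans (mul_le_mul_of_nonneg_right
        ((hB s).trans (le_max_left _ _)) (norm_nonneg _))) (by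
    intro y
    have := h1 (ofCp y)
    rw [div_le_iff₀ hC] at this
    rw [mul_comm]
    exact this)
  have hcomp : CompleteSpace (Cp X) :=
    (completeSpace_congr (e := e.toEquiv) e.isUniformEmbedding).mp inferInstance
  exact ⟨Cp X, i1, i2, hcomp, e, h1, h2, h3⟩

end Pool.Agent.Lib.MP_76005e_an
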