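import Mathlib
import Pool.Agent.Lib.MP_76005e_an.PathEx
import Pool.Agent.Lib.MP_76005e_an.Ren

/-!
# The abstract theorem (MP_76005e_an, helper66)
-/

set_option autoImplicit false

namespace Pool.Agent.Lib.MP_76005e_an

universe u

open Cardinal

variable {𝕜 : Type} [RCLike 𝕜] {X : Type u} [NormedAddCommGroup X] [NormedSpace 𝕜 X]
  {A : Type u} [LinearOrder A] {J : Type u}

/-- **The abstract theorem**: filtration with small sets of functionals and a large almost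
biorthogonal tree system imply infinite Banach-Mazur diameter. -/
theorem main_abs [CompleteSpace X] [Nonempty A] (Φ : Filt 𝕜 X A) (hJ : ℵ₀ < #J)
    (hF : ∀ a, #(Φ.F a) < #J)
    (hsys : ∀ ε : ℝ, 0 < ε → ∃ (B : ℝ) (f : List J → X →L[𝕜] 𝕜) (x : List J → X),
      (∀ t, ‖x t‖ ≤ 1) ∧ (∀ t, ‖f t‖ ≤ B) ∧ ABio ε f x) (K : ℝ) :
    ∃ (Y : Type u) (_ : NormedAddCommGroup Y) (_ : NormedSpace 𝕜 Y) (_ : CompleteSpace Y)
      (Z : Type u) (_ : NormedAddCommGroup Z) (_ : NormedSpace 𝕜 Z) (_ : CompleteSpace Z),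
      Nonempty (X ≃L[𝕜] Y) ∧ Nonempty (X ≃L[𝕜] Z) ∧
      ∀ T : Y ≃L[𝕜] Z, K < ‖(T : Y →L[𝕜] Z)‖ * ‖(T.symm : Z →L[𝕜] Y)‖ := by
  classical
  obtain ⟨k, hk⟩ := exists_nat_gt (max (40 * K) 0)
  have hkK : 40 * K < k := (le_max_left _ _).trans_lt hk
  have hk0' : (0 : ℝ) < k := (le_max_right _ _).trans_lt hk
  have hk0 : 0 < k := by exact_mod_cast hk0'
  set δ : ℝ := 1 / (2 * k + 4) with hδdef
  have hδ : 0 < δ := by positivity
  have hδk : (2 * (k : ℝ) + 4) * δ ≤ 1 := by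
    rw [hδdef, mul_one_div_cancel (by positivity)]
  set M : ℕ := k * (2 * k + 4) with hMdef
  have hM0 : 0 < M := by positivity
  have hM : (k : ℝ) ≤ M * δ := by
    rw [hMdef, hδdef]
    push_cast
    rw [mul_assoc, mul_one_div_cancel (by positivity), mul_one]
  set ε : ℝ := 1 / ((M + 2 * k + 2) * (2 * k)) with hεdef
  have hε : 0 < ε := by positivity
  have hM0' : (0 : ℝ) < M := by exact_mod_cast hM0
  have h2ke : (2 * k : ℝ) * ε = 1 / (M + 2 * k + 2) := by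
    rw [hεdef]
    field_simp
  obtain ⟨B, f, x, hx, hfB, hfx⟩ := hsys ε hε
  have hB0 : 0 ≤ B := (norm_nonneg _).trans (hfB [])
  -- the first renorming
  let φ : {s : List J // s.length ≤ 2 * k} → X →L[𝕜] 𝕜 := fun s =>
    (((1 / 2 : ℝ)) : 𝕜) • FF f s.1
  have hφval : ∀ s z, ‖φ s z‖ = 1 / 2 * ‖FF f s.1 z‖ := by
    intro s z
    change ‖(((1 / 2 : ℝ)) : 𝕜) • FF f s.1 z‖ = _
    rw [norm_smul, RCLike.norm_ofReal, abs_of_pos (by norm_num : (0 : ℝ) < 1 / 2)]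
  have hlen : ∀ s : {s : List J // s.length ≤ 2 * k}, (s.1.length : ℝ) * ε ≤ 2 * k * ε := by
    intro s
    apply mul_le_mul_of_nonneg_right _ hε.le
    exact_mod_cast s.2
  have hφB : ∀ s, ‖φ s‖ ≤ (2 * k : ℕ) * B := by
    intro s
    rw [norm_smul, RCLike.norm_ofReal, abs_of_pos (by norm_num : (0 : ℝ) < 1 / 2)]
    have h1 := norm_FF_le f hfB s.1
    have h2 : (s.1.length : ℝ) * B ≤ (2 * k : ℕ) * B := by
      apply mul_le_mul_of_nonneg_right _ hB0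
      exact_mod_cast s.2
    have h3 : (0 : ℝ) ≤ (2 * k : ℕ) * B := by positivity
    linarith
  have hC : (0 : ℝ) < M + 2 * k + 2 := by positivity
  obtain ⟨Y, iY1, iY2, iY3, e1, he1, he2, he3⟩ := exists_renorm hC φ hφB
  -- the second renorming
  obtain ⟨Z, iZ1, iZ2, iZ3, e2, hz1, hz2, hz3⟩ := exists_renorm hk0'
    (fun φ : {φ : X →L[𝕜] 𝕜 // Φ.Adm k φ} => φ.1) (B := 1) (fun φ => φ.2.norm_le hk0)
  refine ⟨Y, iY1, iY2, iY3, Z, iZ1, iZ2, iZ3, ⟨e1⟩, ⟨e2⟩, fun T => ?_⟩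
  by_contra hcon
  push Not at hcon
  -- norm estimates in the first space
  have hn1 : ∀ (t : List J) (R : Finset J) (c : J → 𝕜), R.card = M → (∀ j, ‖c j‖ ≤ 1) →
      ‖e1 (∑ j ∈ R, c j • x (j :: t))‖ ≤ 1 := by
    intro t R c hR hc
    apply he3 _ _ zero_le_one
    · rw [div_le_one hC]
      calc ‖∑ j ∈ R, c j • x (j :: t)‖ ≤ ∑ j ∈ R, ‖c j • x (j :: t)‖ := norm_sum_le _ _
        _ ≤ ∑ j ∈ R, (1 : ℝ) := by
            refine Finset.sum_le_sum fun j _ => ?_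
            rw [norm_smul]
            exact mul_le_one₀ (hc j) (norm_nonneg _) (hx _)
        _ = M := by rw [Finset.sum_const, hR, nsmul_eq_mul, mul_one]
        _ ≤ _ := by linarith
    · intro s
      rw [hφval]
      have h1 := FF_siblings f x hε.le hfx t s.1 R c hc
      have h2 : (R.card : ℝ) * (s.1.length * ε) ≤ 1 := by
        rw [hR]
        calc (M : ℝ) * (s.1.length * ε) ≤ M * (2 * k * ε) :=
              mul_le_mul_of_nonneg_left (hlen s) hM0'.le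
          _ = M / (M + 2 * k + 2) := by rw [h2ke]; ring
          _ ≤ 1 := by rw [div_le_one hC]; linarith
      linarith
  have hn2 : ∀ (t : ℕ → List J) (c : ℕ → J), Branch t c → ∀ j : ℕ → ℕ, StrictMono j →
      ‖e1 (∑ l ∈ Finset.range k, ((-1 : 𝕜) ^ l) • x (t (j l + 1)))‖ ≤ 1 := by
    intro t c hb j hj
    apply he3 _ _ zero_le_one
    · rw [div_le_one hC]
      calc ‖∑ l ∈ Finset.range k, ((-1 : 𝕜) ^ l) • x (t (j l + 1))‖
          ≤ ∑ l ∈ Finset.range k, ‖((-1 : 𝕜) ^ l) • x (t (j l + 1))‖ := norm_sum_le _ _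
        _ ≤ ∑ l ∈ Finset.range k, (1 : ℝ) := by
            refine Finset.sum_le_sum fun l _ => ?_
            rw [norm_smul, norm_pow, norm_neg, norm_one, one_pow, one_mul]
            exact hx _
        _ = k := by simp
        _ ≤ _ := by linarith
    · intro s
      rw [hφval]
      have h1 := FF_alt f x hε.le hfx hb hj k s.1
      have h2 : (k : ℝ) * (s.1.length * ε) ≤ 1 := by
        calc (k : ℝ) * (s.1.length * ε) ≤ k * (2 * k * ε) :=
              mul_le_mul_of_nonneg_left (hlen s) hk0'.le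
          _ = k / (M + 2 * k + 2) := by rw [h2ke]; ring
          _ ≤ 1 := by rw [div_le_one hC]; linarith
      linarith
  have hn3 : ∀ (t : ℕ → List J) (c : ℕ → J), Branch t c → ∀ G : Finset ℕ,
      G ⊆ Finset.range (2 * k) → (G.card : ℝ) ≤ 4 * ‖e1 (∑ i ∈ G, x (t (i + 1)))‖ := by
    intro t c hb G hG
    have h1 := FF_sum f x hε.le hfx hb hG
    have h2 := he2 ⟨t (2 * k), (hb.length _).le⟩ (∑ i ∈ G, x (t (i + 1)))
    rw [hφval] at h2
    have h3 : ((2 * k : ℕ) : ℝ) * ε ≤ 1 / 2 := by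
      push_cast
      rw [h2ke]
      apply one_div_le_one_div_of_le (by norm_num)
      linarith
    have h4 : (G.card : ℝ) * (((2 * k : ℕ) : ℝ) * ε) ≤ G.card * (1 / 2) :=
      mul_le_mul_of_nonneg_left h3 (Nat.cast_nonneg _)
    change 1 / 2 * ‖FF f (t (2 * k)) (∑ i ∈ G, x (t (i + 1)))‖ ≤ _ at h2
    linarith
  -- the operator
  set a : ℝ := ‖(T : Y →L[𝕜] Z)‖ with ha
  have ha0 : 0 < a := by
    rcases (norm_nonneg (T : Y →L[𝕜] Z)).eq_or_lt with h | h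
    · exfalso
      have h1 : (T : Y →L[𝕜] Z) = 0 := norm_eq_zero.mp h.symm
      have h2 : T (e1 (x [])) = 0 := by
        have := congrArg (fun L : Y →L[𝕜] Z => L (e1 (x []))) h1
        simpa using this
      have h3 : x [] = 0 := by simpa using h2
      have h4 := hfx.1 []
      rw [h3, map_zero] at h4
      exact zero_ne_one h4
    · exact h
  let U : X →L[𝕜] X := (((a⁻¹ : ℝ)) : 𝕜) •
    ((e2.symm : Z →L[𝕜] X).comp ((T : Y →L[𝕜] Z).comp (e1 : X →L[𝕜] Y)))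
  have hUe : ∀ z, ‖e2 (U z)‖ = a⁻¹ * ‖T (e1 z)‖ := by
    intro z
    have : e2 (U z) = (((a⁻¹ : ℝ)) : 𝕜) • T (e1 z) := by
      change e2 ((((a⁻¹ : ℝ)) : 𝕜) • e2.symm (T (e1 z))) = _
      rw [map_smul, e2.apply_symm_apply]
    rw [this, norm_smul, RCLike.norm_ofReal, abs_of_pos (inv_pos.mpr ha0)]
  have hU1 : ∀ z, ‖e2 (U z)‖ ≤ ‖e1 z‖ := by
    intro z
    rw [hUe, inv_mul_le_iff₀ ha0]
    exact (T : Y →L[𝕜] Z).le_opNorm _
  have hU2 : ∀ z, ‖e1 z‖ ≤ ‖(T.symm : Z →L[𝕜] Y)‖ * a * ‖e2 (U z)‖ := by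
    intro z
    rw [hUe, mul_assoc, ← mul_assoc a, mul_inv_cancel₀ ha0.ne', one_mul]
    have := (T.symm : Z →L[𝕜] Y).le_opNorm (T (e1 z))
    simpa using this
  have hN : ∀ z, ‖z‖ ≤ k * ‖e2 z‖ := by
    intro z
    have := hz1 z
    rwa [div_le_iff₀' hk0'] at this
  obtain ⟨t, c, hb, ⟨P⟩⟩ := exists_path (N := fun z => ‖e2 z‖) (u := fun t => U (x t)) Φ hJ hF hN
    hM0 hδ hM (by
      intro t R c hR hc
      have e : ∑ j ∈ R, c j • U (x (j :: t)) = U (∑ j ∈ R, c j • x (j :: t)) := by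
        rw [map_sum]
        simp_rw [map_smul]
      change ‖e2 (∑ j ∈ R, c j • U (x (j :: t)))‖ ≤ 1
      rw [e]
      exact (hU1 _).trans (hn1 t R c hR hc))
  have hfinal := P.core hδ hk0 hδk (N := fun z => ‖e2 z‖)
    (K := 4 * (‖(T.symm : Z →L[𝕜] Y)‖ * a)) (by positivity)
    (fun z φ hφ => hz2 ⟨φ, hφ⟩ z)
    (fun z r hr h1 h2 => hz3 z r hr h1 (fun s => h2 s.1 s.2))
    (by
      intro j hj
      have e : ∑ l ∈ Finset.range k, ((-1 : 𝕜) ^ l) • U (x (t (j l + 1))) =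
          U (∑ l ∈ Finset.range k, ((-1 : 𝕜) ^ l) • x (t (j l + 1))) := by
        rw [map_sum]
        simp_rw [map_smul]
      change ‖e2 (∑ l ∈ Finset.range k, ((-1 : 𝕜) ^ l) • U (x (t (j l + 1))))‖ ≤ 1
      rw [e]
      exact (hU1 _).trans (hn2 t c hb j hj))
    (by
      intro G hG
      have e : ∑ i ∈ G, U (x (t (i + 1))) = U (∑ i ∈ G, x (t (i + 1))) := by
        rw [map_sum]
      change (G.card : ℝ) ≤ 4 * (‖(T.symm : Z →L[𝕜] Y)‖ * a) *
        ‖e2 (∑ i ∈ G, U (x (t (i + 1))))‖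
      rw [e]
      have h1 := hn3 t c hb G hG
      have h2 := hU2 (∑ i ∈ G, x (t (i + 1)))
      linarith)
  have h5 : a * ‖(T.symm : Z →L[𝕜] Y)‖ ≤ K := hcon
  have h6 : (k : ℝ) ≤ 40 * K := by
    calc (k : ℝ) ≤ 10 * (4 * (‖(T.symm : Z →L[𝕜] Y)‖ * a)) := hfinal
      _ = 40 * (a * ‖(T.symm : Z →L[𝕜] Y)‖) := by ring
      _ ≤ 40 * K := by linarith
  linarith

end Pool.Agent.Lib.MP_76005e_an
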