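import Mathlib
import Pool.Agent.Lib.MP_76005e_an.Main
import Pool.Agent.Lib.MP_76005e_an.FiltEx
import Pool.Agent.Lib.MP_76005e_an.Defs

/-!
# The theorem for spaces with a biorthogonal system of the size of the density character
-/

set_option autoImplicit false

namespace Pool.Agent.Lib.MP_76005e_an

universe u

open Cardinal

open scoped ENNReal

variable {𝕜 : Type} [RCLike 𝕜] {X : Type u} [NormedAddCommGroup X] [NormedSpace 𝕜 X]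

/-- from isomorphs far apart to the diameter -/
lemma bmDiam_eq_top (h : ∀ K : ℝ, ∃ (Y : Type u) (_ : NormedAddCommGroup Y)
      (_ : NormedSpace 𝕜 Y) (_ : CompleteSpace Y)
      (Z : Type u) (_ : NormedAddCommGroup Z) (_ : NormedSpace 𝕜 Z) (_ : CompleteSpace Z),
      Nonempty (X ≃L[𝕜] Y) ∧ Nonempty (X ≃L[𝕜] Z) ∧
      ∀ T : Y ≃L[𝕜] Z, K < ‖(T : Y →L[𝕜] Z)‖ * ‖(T.symm : Z →L[𝕜] Y)‖) :
    bmDiam 𝕜 X = ⊤ := by
  rw [eq_top_iff]
  refine le_of_forall_lt fun b hb => ?_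
  obtain ⟨Y, iY1, iY2, iY3, Z, iZ1, iZ2, iZ3, eY, eZ, hT⟩ := h (b.toReal + 1)
  let Y' : Isomorph 𝕜 X := { space := Y, iso := eY }
  let Z' : Isomorph 𝕜 X := { space := Z, iso := eZ }
  have h1 : ENNReal.ofReal (b.toReal + 1) ≤ bmDist 𝕜 Y'.space Z'.space := by
    refine le_iInf fun T => ENNReal.ofReal_le_ofReal (hT T).le
  have h2 : b < ENNReal.ofReal (b.toReal + 1) := by
    rw [← ENNReal.ofReal_toReal hb.ne]
    apply (ENNReal.ofReal_lt_ofReal_iff (by positivity)).mpr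
    rw [ENNReal.toReal_ofReal ENNReal.toReal_nonneg]
    linarith
  calc b < ENNReal.ofReal (b.toReal + 1) := h2
    _ ≤ bmDist 𝕜 Y'.space Z'.space := h1
    _ ≤ bmDiam 𝕜 X := le_iSup₂_of_le Y' Z' le_rfl

/-- **Theorem A.** A Banach space of uncountable density character `κ` that has for every
`ε > 0` a bounded `ε`-biorthogonal system of cardinality `κ` has `D(X) = ∞`. -/
theorem thmA [CompleteSpace X] (hX : ℵ₀ < dens X)
    (hsys : ∀ ε : ℝ, 0 < ε → ∃ (ι : Type u) (x : ι → X) (f : ι → X →L[𝕜] 𝕜) (B : ℝ),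
      #ι = dens X ∧ IsBiorthogonal ε x f ∧ ∀ i, ‖x i‖ ≤ B ∧ ‖f i‖ ≤ B) :
    bmDiam 𝕜 X = ⊤ := by
  apply bmDiam_eq_top
  obtain ⟨D, hD, hDc⟩ := exists_dense_card X
  obtain ⟨A, iA, Φ, iN, hF⟩ := exists_filt (𝕜 := 𝕜) hD hX hDc
  obtain ⟨J, hJ⟩ : ∃ J : Type u, #J = dens X := ⟨D, hDc⟩
  apply main_abs Φ (J := J) (by rw [hJ]; exact hX) (fun a => by rw [hJ]; exact hF a)
  intro ε hε
  obtain ⟨ι, x, f, B, hι, ⟨h1, h2⟩, hB⟩ := hsys ε hε
  have hinf : Infinite J := by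
    rw [← Cardinal.aleph0_le_mk_iff, hJ]
    exact hX.le
  obtain ⟨φ⟩ := Cardinal.eq.mp ((Cardinal.mk_list_eq_mk J).trans (hJ.trans hι.symm))
  set B' := max B 1 with hB'
  have hB0 : 0 < B' := lt_of_lt_of_le one_pos (le_max_right _ _)
  have hne : ((B' : ℝ) : 𝕜) ≠ 0 := by
    rw [ne_eq, RCLike.ofReal_eq_zero]
    exact hB0.ne'
  have hval : ∀ s t, ((((B' : ℝ)) : 𝕜) • f (φ s)) ((((B'⁻¹ : ℝ)) : 𝕜) • x (φ t)) =
      f (φ s) (x (φ t)) := by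
    intro s t
    rw [map_smul, smul_apply, smul_smul, RCLike.ofReal_inv, inv_mul_cancel₀ hne, one_smul]
  refine ⟨B' * B', fun t => (((B' : ℝ)) : 𝕜) • f (φ t), fun t => (((B'⁻¹ : ℝ)) : 𝕜) • x (φ t),
    ?_, ?_, ?_, ?_⟩
  · intro t
    rw [norm_smul, RCLike.norm_ofReal, abs_of_pos (inv_pos.mpr hB0), inv_mul_le_iff₀ hB0, mul_one]
    exact (hB _).1.trans (le_max_left _ _)
  · intro t
    rw [norm_smul, RCLike.norm_ofReal, abs_of_pos hB0]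
    exact mul_le_mul_of_nonneg_left ((hB _).2.trans (le_max_left _ _)) hB0.le
  · intro t
    change ((((B' : ℝ)) : 𝕜) • f (φ t)) ((((B'⁻¹ : ℝ)) : 𝕜) • x (φ t)) = 1
    rw [hval, h1]
  · intro s t hst
    change ‖((((B' : ℝ)) : 𝕜) • f (φ s)) ((((B'⁻¹ : ℝ)) : 𝕜) • x (φ t))‖ ≤ ε
    rw [hval]
    exact h2 _ _ fun h => hst (φ.injective h)

/-- the boundedness is automatic for uncountable cofinality -/
theorem exists_bounded_sub {κ : Cardinal.{u}} (hκ : ℵ₀ ≤ κ) (hcof : ℵ₀ < κ.ord.cof) {ι : Type u}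
    {x : ι → X} {f : ι → X →L[𝕜] 𝕜} {ε : ℝ} (hι : #ι = κ) (hxf : IsBiorthogonal ε x f) :
    ∃ (ι : Type u) (x : ι → X) (f : ι → X →L[𝕜] 𝕜) (B : ℝ),
      #ι = κ ∧ IsBiorthogonal ε x f ∧ ∀ i, ‖x i‖ ≤ B ∧ ‖f i‖ ≤ B := by
  obtain ⟨h1, h2⟩ := hxf
  let g : ι → ULift.{u} ℕ := fun i => ⟨⌈max ‖x i‖ ‖f i‖⌉₊⟩
  obtain ⟨n, hn⟩ := Cardinal.infinite_pigeonhole_card g κ hι.ge hκ (by
    rwa [Cardinal.mk_uLift, Cardinal.mk_nat, Cardinal.lift_aleph0])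
  have hn' : #(g ⁻¹' {n}) = κ := le_antisymm ((Cardinal.mk_set_le _).trans hι.le) hn
  refine ⟨g ⁻¹' {n}, fun i => x i, fun i => f i, n.down, hn', ⟨fun i => h1 i, ?_⟩, ?_⟩
  · intro i j hij
    exact h2 _ _ fun h => hij (Subtype.ext h)
  · intro i
    have hi : g i = n := i.2
    have hi' : ⌈max ‖x i‖ ‖f i‖⌉₊ = n.down := congrArg ULift.down hi
    have h3 : max ‖x i‖ ‖f i‖ ≤ (n.down : ℝ) := (Nat.le_ceil _).trans_eq (by rw [hi'])
    exact ⟨(le_max_left _ _).trans h3, (le_max_right _ _).trans h3⟩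

end Pool.Agent.Lib.MP_76005e_an
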