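import Mathlib
import Pool.Agent.Lib.MP_76005e_an.Thm

/-!
# Spaces without small total sets of functionals (MP_76005e_an, helper66)

A transfinite monotone basic sequence of length the density character.
-/

set_option autoImplicit false

namespace Pool.Agent.Lib.MP_76005e_an

universe u

open Cardinal

variable {𝕜 : Type} [RCLike 𝕜] {X : Type u} [NormedAddCommGroup X] [NormedSpace 𝕜 X]
  {A : Type u} [LinearOrder A]

/-- monotone projections -/
lemma monotone_proj {x : A → X}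
    (hx : ∀ a, ∀ v ∈ Submodule.span 𝕜 (x '' Set.Iio a), ∀ c : 𝕜, ‖v‖ ≤ ‖v + c • x a‖)
    {L U : Set A} (hLU : ∀ b ∈ L, ∀ c ∈ U, b < c) {v u : X}
    (hv : v ∈ Submodule.span 𝕜 (x '' L)) (hu : u ∈ Submodule.span 𝕜 (x '' U)) :
    ‖v‖ ≤ ‖v + u‖ := by
  classical
  have key : ∀ s : Finset A, (∀ b ∈ L, ∀ c ∈ s, b < c) →
      ∀ u ∈ Submodule.span 𝕜 (x '' (s : Set A)), ‖v‖ ≤ ‖v + u‖ := by
    intro s
    induction s using Finset.induction_on_max with
    | empty =>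
      intro _ u hu
      rw [Finset.coe_empty, Set.image_empty, Submodule.span_empty, Submodule.mem_bot] at hu
      rw [hu, add_zero]
    | insert m s hm ih =>
      intro hL u hu
      rw [Finset.coe_insert, Set.image_insert_eq, Submodule.mem_span_insert] at hu
      obtain ⟨a, z, hz, rfl⟩ := hu
      have h1 := ih (fun b hb c hc => hL b hb c (Finset.mem_insert_of_mem hc)) z hz
      have h2 : v + z ∈ Submodule.span 𝕜 (x '' Set.Iio m) := by
        apply Submodule.add_mem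
        · refine Submodule.span_mono (Set.image_mono ?_) hv
          intro b hb
          exact hL b hb m (Finset.mem_insert_self _ _)
        · refine Submodule.span_mono (Set.image_mono ?_) hz
          intro b hb
          exact hm b hb
      have h3 := hx m _ h2 a
      calc ‖v‖ ≤ ‖v + z‖ := h1
        _ ≤ ‖v + z + a • x m‖ := h3
        _ = ‖v + (a • x m + z)‖ := by congr 1; abel
  obtain ⟨T, hT1, hT2⟩ := Submodule.mem_span_finite_of_mem_span hu
  obtain ⟨s, hs1, hs3, hs4⟩ := (Set.exists_subset_image_finite_and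
    (p := fun t => u ∈ Submodule.span 𝕜 t)).mp ⟨(T : Set X), hT1, T.finite_toSet, hT2⟩
  apply key hs3.toFinset
  · intro b hb c hc
    exact hLU b hb c (hs1 (hs3.mem_toFinset.mp hc))
  · rw [hs3.coe_toFinset]
    exact hs4

/-- distance to the span of the other vectors -/
lemma half_le_infDist {x : A → X} (hx1 : ∀ a, ‖x a‖ = 1)
    (hx : ∀ a, ∀ v ∈ Submodule.span 𝕜 (x '' Set.Iio a), ∀ c : 𝕜, ‖v‖ ≤ ‖v + c • x a‖) (a : A) :
    1 / 2 ≤ Metric.infDist (x a) (Submodule.span 𝕜 (x '' {a}ᶜ) : Set X) := by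
  rw [Metric.le_infDist ⟨0, Submodule.zero_mem _⟩]
  intro y hy
  have h0 : ({a}ᶜ : Set A) = Set.Iio a ∪ Set.Ioi a := by
    ext b
    simp
  rw [h0, Set.image_union, Submodule.span_union, SetLike.mem_coe, Submodule.mem_sup] at hy
  obtain ⟨y1, hy1, y2, hy2, rfl⟩ := hy
  have hxa : x a ∈ Submodule.span 𝕜 (x '' {a}) := Submodule.subset_span ⟨a, rfl, rfl⟩
  have h1 : ‖-y1‖ ≤ ‖-y1 + (x a - y2)‖ := by
    apply monotone_proj hx (L := Set.Iio a) (U := Set.Ici a)
    · intro b hb c hc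
      exact lt_of_lt_of_le hb hc
    · exact Submodule.neg_mem _ hy1
    · refine Submodule.sub_mem _ (Submodule.span_mono (Set.image_mono ?_) hxa)
        (Submodule.span_mono (Set.image_mono Set.Ioi_subset_Ici_self) hy2)
      intro b hb
      rw [Set.mem_singleton_iff] at hb
      rw [hb]
      exact Set.self_mem_Ici
  have h2 : ‖x a - y1‖ ≤ ‖(x a - y1) + (-y2)‖ := by
    apply monotone_proj hx (L := Set.Iic a) (U := Set.Ioi a)
    · intro b hb c hc
      exact lt_of_le_of_lt hb hc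
    · refine Submodule.sub_mem _ (Submodule.span_mono (Set.image_mono ?_) hxa)
        (Submodule.span_mono (Set.image_mono Set.Iio_subset_Iic_self) hy1)
      intro b hb
      rw [Set.mem_singleton_iff] at hb
      rw [hb]
      exact Set.self_mem_Iic
    · exact Submodule.neg_mem _ hy2
  have e1 : -y1 + (x a - y2) = x a - (y1 + y2) := by abel
  have e2 : (x a - y1) + (-y2) = x a - (y1 + y2) := by abel
  rw [e1, norm_neg] at h1
  rw [e2] at h2
  have h3 : ‖x a‖ ≤ ‖x a - y1‖ + ‖y1‖ := by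
    calc ‖x a‖ = ‖(x a - y1) + y1‖ := by rw [sub_add_cancel]
      _ ≤ _ := norm_add_le _ _
  rw [hx1] at h3
  rw [dist_eq_norm]
  linarith

/-- a vector killed by norming functionals of a small subspace -/
lemma exists_next {κ : Cardinal.{u}} (hκ : ℵ₀ < κ)
    (htot : ∀ G : Set (X →L[𝕜] 𝕜), IsTotal G → κ ≤ #G) {I : Type u} (hI : #I < κ) (y : I → X) :
    ∃ z : X, ‖z‖ = 1 ∧ ∀ v ∈ Submodule.span 𝕜 (Set.range y), ∀ c : 𝕜, ‖v‖ ≤ ‖v + c • z‖ := by
  obtain ⟨c0, hc0⟩ := TopologicalSpace.exists_dense_seq 𝕜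
  let V := VV c0 y Set.univ
  have hV : #V < κ := by
    refine (VV_card c0 y _).trans_lt (max_lt hκ ?_)
    rwa [Cardinal.mk_univ]
  choose g hg1 hg2 using fun v : X => exists_dual_vector'' 𝕜 v
  let G : Set (X →L[𝕜] 𝕜) := g '' V
  have hG : ¬ IsTotal G := by
    intro h
    exact absurd (htot G h) (not_le.mpr (Cardinal.mk_image_le.trans_lt hV))
  unfold IsTotal at hG
  push Not at hG
  obtain ⟨z0, hz0, hz⟩ := hG
  have hzn : ‖z0‖ ≠ 0 := norm_ne_zero_iff.mpr hz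
  refine ⟨((‖z0‖⁻¹ : ℝ) : 𝕜) • z0, ?_, ?_⟩
  · rw [norm_smul, RCLike.norm_ofReal, abs_of_nonneg (by positivity), inv_mul_cancel₀ hzn]
  · intro v hv c
    refine le_of_forall_pos_le_add fun η hη => ?_
    have hv' : v ∈ Submodule.span 𝕜 (y '' Set.univ) := by rwa [Set.image_univ]
    obtain ⟨w, hw, hvw⟩ := VV_approx hc0 y Set.univ v hv' (η / 2) (by positivity)
    have h1 : g w (w + c • ((‖z0‖⁻¹ : ℝ) : 𝕜) • z0) = ((‖w‖ : ℝ) : 𝕜) := by
      rw [map_add, map_smul, map_smul, hz0 (g w) ⟨w, hw, rfl⟩, smul_zero, smul_zero, add_zero,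
        hg2]
    have h2 : ‖w‖ ≤ ‖w + c • ((‖z0‖⁻¹ : ℝ) : 𝕜) • z0‖ := by
      have h3 := (g w).le_opNorm (w + c • ((‖z0‖⁻¹ : ℝ) : 𝕜) • z0)
      rw [h1, RCLike.norm_ofReal, abs_of_nonneg (norm_nonneg _)] at h3
      refine h3.trans ?_
      exact mul_le_of_le_one_left (norm_nonneg _) (hg1 w)
    have h4 : ‖v‖ ≤ ‖w‖ + ‖v - w‖ := by
      calc ‖v‖ = ‖w + (v - w)‖ := by rw [add_sub_cancel]
        _ ≤ _ := norm_add_le _ _
    have h5 : ‖w + c • ((‖z0‖⁻¹ : ℝ) : 𝕜) • z0‖ ≤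
        ‖v + c • ((‖z0‖⁻¹ : ℝ) : 𝕜) • z0‖ + ‖v - w‖ := by
      calc ‖w + c • ((‖z0‖⁻¹ : ℝ) : 𝕜) • z0‖ =
            ‖(v + c • ((‖z0‖⁻¹ : ℝ) : 𝕜) • z0) - (v - w)‖ := by congr 1; abel
        _ ≤ _ := norm_sub_le _ _
    linarith

/-- **A bounded biorthogonal system from the absence of small total sets.** -/
theorem exists_bio_of_total {κ : Cardinal.{u}} (hκ : ℵ₀ < κ)
    (htot : ∀ G : Set (X →L[𝕜] 𝕜), IsTotal G → κ ≤ #G) :
    ∃ (ι : Type u) (x : ι → X) (f : ι → X →L[𝕜] 𝕜),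
      #ι = κ ∧ IsBiorthogonal 0 x f ∧ ∀ i, ‖x i‖ ≤ 2 ∧ ‖f i‖ ≤ 2 := by
  obtain ⟨A, iA, iW, iM, iN, hA, hseg⟩ := exists_index κ hκ.le
  choose Z hZ1 hZ2 using fun (a : A) (y : Set.Iio a → X) => exists_next hκ htot (hseg a) y
  let x : A → X := WellFounded.fix (wellFounded_lt (α := A))
    (fun a ih => Z a (fun b => ih b.1 b.2))
  have hxeq : ∀ a, x a = Z a (fun b => x b.1) := fun a =>
    WellFounded.fix_eq (wellFounded_lt (α := A)) (fun a ih => Z a (fun b => ih b.1 b.2)) a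
  have hx1 : ∀ a, ‖x a‖ = 1 := by
    intro a
    rw [hxeq]
    exact hZ1 _ _
  have hx2 : ∀ a, ∀ v ∈ Submodule.span 𝕜 (x '' Set.Iio a), ∀ c : 𝕜, ‖v‖ ≤ ‖v + c • x a‖ := by
    intro a v hv c
    rw [hxeq]
    apply hZ2
    rwa [Set.image_eq_range] at hv
  choose g hg1 hg2 hg3 using fun a : A =>
    exists_functional (Submodule.span 𝕜 (x '' {a}ᶜ)) (x a)
  have hd := half_le_infDist hx1 hx2
  set d : A → ℝ := fun a => Metric.infDist (x a) (Submodule.span 𝕜 (x '' {a}ᶜ) : Set X) with hddef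
  have hd0 : ∀ a, 0 < d a := fun a => lt_of_lt_of_le (by norm_num) (hd a)
  refine ⟨A, x, fun a => (((d a)⁻¹ : ℝ) : 𝕜) • g a, hA, ⟨?_, ?_⟩, ?_⟩
  · intro a
    have h1 : ((d a : ℝ) : 𝕜) ≠ 0 := by
      rw [ne_eq, RCLike.ofReal_eq_zero]
      exact (hd0 a).ne'
    rw [smul_apply, hg3, smul_eq_mul, RCLike.ofReal_inv]
    exact inv_mul_cancel₀ h1
  · intro a b hab
    have h1 : g a (x b) = 0 := by
      apply hg2
      apply Submodule.subset_span
      exact ⟨b, fun h => hab (Set.mem_singleton_iff.mp h).symm, rfl⟩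
    rw [smul_apply, h1, smul_zero, norm_zero]
  · intro a
    refine ⟨(hx1 a).le.trans (by norm_num), ?_⟩
    rw [norm_smul, RCLike.norm_ofReal, abs_of_pos (inv_pos.mpr (hd0 a))]
    have h1 : (d a)⁻¹ ≤ 2 := by
      rw [inv_le_comm₀ (hd0 a) (by norm_num)]
      have := hd a
      rw [← one_div]
      exact this
    calc (d a)⁻¹ * ‖g a‖ ≤ 2 * 1 :=
          mul_le_mul h1 (hg1 a) (norm_nonneg _) (by norm_num)
      _ = 2 := by norm_num

/-- **Theorem D.** If no total set of functionals has cardinality smaller than the density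
character, then `D(X) = ∞`. -/
theorem thmD [CompleteSpace X] (hX : ℵ₀ < dens X)
    (htot : ∀ G : Set (X →L[𝕜] 𝕜), IsTotal G → dens X ≤ #G) : bmDiam 𝕜 X = ⊤ := by
  obtain ⟨ι, x, f, h1, h2, h3⟩ := exists_bio_of_total hX htot
  refine thmA hX fun ε hε => ⟨ι, x, f, 2, h1, ⟨h2.1, fun i j hij => (h2.2 i j hij).trans hε.le⟩, h3⟩

end Pool.Agent.Lib.MP_76005e_an
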