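import Mathlib
import Pool.Agent.Lib.MP_76005e_an.Total

/-!
# Corollaries: reflexive spaces, strong limit density, small norming sets (MP_76005e_an, helper66)
-/

set_option autoImplicit false

namespace Pool.Agent.Lib.MP_76005e_an

universe u

open Cardinal

variable {𝕜 : Type} [RCLike 𝕜] {X : Type u} [NormedAddCommGroup X] [NormedSpace 𝕜 X]

/-- density of combinations, from the absence of annihilating functionals -/
lemma dense_VV_of {A : Type u} {c : ℕ → 𝕜} (hc : DenseRange c) (e : A → X) (s : Set A)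
    (h : ∀ f : X →L[𝕜] 𝕜, (∀ a ∈ s, f (e a) = 0) → f = 0) : Dense (VV c e s) := by
  intro x
  rw [Metric.mem_closure_iff]
  intro ε hε
  set S := Submodule.span 𝕜 (e '' s) with hS
  have h1 : Metric.infDist x (S : Set X) < ε / 2 := by
    obtain ⟨g, hg1, hg2, hg3⟩ := exists_functional S x
    have hg0 : g = 0 := h g fun a ha => hg2 _ (Submodule.subset_span ⟨a, ha, rfl⟩)
    rw [hg0, zero_apply] at hg3
    have h2 : Metric.infDist x (S : Set X) = 0 := by
      have := hg3.symm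
      rwa [RCLike.ofReal_eq_zero] at this
    rw [h2]
    positivity
  obtain ⟨y, hy, hxy⟩ := (Metric.infDist_lt_iff ⟨0, S.zero_mem⟩).mp h1
  obtain ⟨v, hv, hyv⟩ := VV_approx hc e s y hy (ε / 2) (by positivity)
  refine ⟨v, hv, ?_⟩
  calc dist x v ≤ dist x y + dist y v := dist_triangle _ _ _
    _ < ε := by
        rw [dist_eq_norm y v]
        linarith

/-- **Theorem E.** `D(X) = ∞` for every nonseparable reflexive Banach space. -/
theorem thmE [CompleteSpace X] (hX : ℵ₀ < dens X)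
    (hrefl : Function.Surjective (NormedSpace.inclusionInDoubleDual 𝕜 X)) :
    bmDiam 𝕜 X = ⊤ := by
  apply thmD hX
  intro G hG
  by_contra hcon
  rw [not_le] at hcon
  obtain ⟨c, hc⟩ := TopologicalSpace.exists_dense_seq 𝕜
  -- rational combinations of `G` are dense in the dual
  let D1 : Set (X →L[𝕜] 𝕜) := VV c (fun g : X →L[𝕜] 𝕜 => g) G
  have hD1 : Dense D1 := by
    apply dense_VV_of hc
    intro F hF
    obtain ⟨x, rfl⟩ := hrefl F
    have : x = 0 := by
      apply hG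
      intro g hg
      exact hF g hg
    rw [this, map_zero]
  have hD1c : #D1 < dens X := (VV_card c _ G).trans_lt (max_lt hX hcon)
  -- almost norming vectors
  have hex : ∀ d : X →L[𝕜] 𝕜, ∃ x : X, ‖x‖ ≤ 1 ∧ ‖d‖ / 2 ≤ ‖d x‖ := by
    intro d
    by_cases hd : d = 0
    · exact ⟨0, by simp, by simp [hd]⟩
    · have hd' : 0 < ‖d‖ := norm_pos_iff.mpr hd
      obtain ⟨x, hx1, hx2⟩ := d.exists_lt_apply_of_lt_opNorm (r := ‖d‖ / 2) (by linarith)
      exact ⟨x, hx1.le, hx2.le⟩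
  choose y hy1 hy2 using hex
  have hE : Dense (VV c y D1) := by
    apply dense_VV_of hc
    intro f hf
    by_contra hf0
    have hf' : 0 < ‖f‖ := norm_pos_iff.mpr hf0
    obtain ⟨d, hd, hfd⟩ := Metric.mem_closure_iff.mp (hD1 f) (‖f‖ / 4) (by positivity)
    rw [dist_eq_norm] at hfd
    have h1 : ‖f‖ ≤ ‖d‖ + ‖f - d‖ := by
      calc ‖f‖ = ‖d + (f - d)‖ := by rw [add_sub_cancel]
        _ ≤ _ := norm_add_le _ _
    have h2 : ‖d (y d)‖ ≤ ‖f - d‖ := by
      have e : d (y d) = -((f - d) (y d)) := by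
        rw [sub_apply, hf d hd, zero_sub, neg_neg]
      rw [e, norm_neg]
      refine ((f - d).le_opNorm _).trans ?_
      exact mul_le_of_le_one_right (norm_nonneg _) (hy1 d)
    have h3 := hy2 d
    linarith
  have hfin : #(VV c y D1) < dens X := (VV_card c y D1).trans_lt (max_lt hX hD1c)
  exact absurd (dens_le X hE) (not_le.mpr hfin)

/-- **Theorem F.** `D(X) = ∞` if the density character is an uncountable strong limit cardinal. -/
theorem thmF [CompleteSpace X] (hX : ℵ₀ < dens X) (hsl : (dens X).IsStrongLimit) :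
    bmDiam 𝕜 X = ⊤ := by
  apply thmD (𝕜 := 𝕜) hX
  intro G hG
  by_contra hcon
  rw [not_le] at hcon
  have h𝕜 : #𝕜 ≤ 2 ^ ℵ₀ := by
    have h1 : #𝕜 ≤ #(ℝ × ℝ) := by
      refine Cardinal.mk_le_of_injective (f := fun z : 𝕜 => (RCLike.re z, RCLike.im z)) ?_
      intro z w hzw
      rw [Prod.mk.injEq] at hzw
      exact RCLike.ext hzw.1 hzw.2
    refine h1.trans ?_
    rw [Cardinal.mk_prod, Cardinal.lift_id, Cardinal.mk_real, Cardinal.continuum_mul_self,
      Cardinal.two_power_aleph0]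
  have h2 : #X ≤ #(G → 𝕜) := by
    refine Cardinal.mk_le_of_injective (f := fun (x : X) (g : G) => (g : X →L[𝕜] 𝕜) x) ?_
    intro x y hxy
    rw [← sub_eq_zero]
    apply hG
    intro g hg
    rw [map_sub, sub_eq_zero]
    exact congrFun hxy ⟨g, hg⟩
  have h3 : #(G → 𝕜) ≤ 2 ^ (ℵ₀ * #G) := by
    rw [Cardinal.mk_arrow, Cardinal.lift_uzero, Cardinal.power_mul]
    apply Cardinal.power_le_power_right
    calc Cardinal.lift.{u} #𝕜 ≤ Cardinal.lift.{u} (2 ^ ℵ₀) := Cardinal.lift_le.mpr h𝕜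
      _ = 2 ^ ℵ₀ := by simp
  have h4 : (2 : Cardinal.{u}) ^ (ℵ₀ * #G) < dens X :=
    hsl.isStrongPrelimit (Cardinal.mul_lt_of_lt hX.le hX hcon)
  have h5 : dens X ≤ #X := (dens_le X dense_univ).trans Cardinal.mk_univ.le
  exact absurd (h5.trans (h2.trans h3)) (not_le.mpr h4)

/-- **Theorem G.** `D(X) = ∞` if `X` has a norming set of functionals of cardinality `< κ` and
bounded `ε`-biorthogonal systems of cardinality `κ`, `κ` uncountable. -/
theorem thmG [CompleteSpace X] {κ : Cardinal.{u}} (hκ : ℵ₀ < κ) {G : Set (X →L[𝕜] 𝕜)}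
    (hG : IsNorming G) (hGκ : #G < κ)
    (hsys : ∀ ε : ℝ, 0 < ε → ∃ (ι : Type u) (x : ι → X) (f : ι → X →L[𝕜] 𝕜) (B : ℝ),
      #ι = κ ∧ IsBiorthogonal ε x f ∧ ∀ i, ‖x i‖ ≤ B ∧ ‖f i‖ ≤ B) :
    bmDiam 𝕜 X = ⊤ := by
  classical
  obtain ⟨hG1, c, hc0, hc⟩ := hG
  apply bmDiam_eq_top
  intro K0
  set K : ℝ := max K0 0 with hKdef
  have hK0 : 0 ≤ K := le_max_right _ _
  set δ : ℝ := c / (8 * (K + 1)) with hδdef
  have hδ : 0 < δ := by positivity
  obtain ⟨M, hM⟩ := exists_nat_gt (1 / δ)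
  have hM0' : (0 : ℝ) < M := (by positivity : (0 : ℝ) < 1 / δ).trans hM
  have hM0 : 0 < M := by exact_mod_cast hM0'
  have hMδ : ((1 : ℕ) : ℝ) ≤ M * δ := by
    rw [div_lt_iff₀ hδ] at hM
    push_cast
    exact hM.le
  set ε : ℝ := 1 / M with hεdef
  have hε : 0 < ε := by positivity
  obtain ⟨ι, x, f, B, hι, ⟨h1, h2⟩, hB⟩ := hsys ε hε
  have hιne : Nonempty ι := by
    rw [← Cardinal.mk_ne_zero_iff, hι]
    exact (Cardinal.aleph0_pos.trans hκ).ne'
  have hB0 : 0 ≤ B := by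
    obtain ⟨i⟩ := hιne
    exact (norm_nonneg _).trans (hB i).1
  let φ : ι → X →L[𝕜] 𝕜 := fun i => (((1 / 2 : ℝ)) : 𝕜) • f i
  have hφval : ∀ s z, ‖φ s z‖ = 1 / 2 * ‖f s z‖ := by
    intro s z
    change ‖(((1 / 2 : ℝ)) : 𝕜) • f s z‖ = _
    rw [norm_smul, RCLike.norm_ofReal, abs_of_pos (by norm_num : (0 : ℝ) < 1 / 2)]
  have hφB : ∀ s, ‖φ s‖ ≤ B := by
    intro s
    rw [norm_smul, RCLike.norm_ofReal, abs_of_pos (by norm_num : (0 : ℝ) < 1 / 2)]
    have := (hB s).2
    have := norm_nonneg (f s)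
    linarith
  have hC : (0 : ℝ) < M * B + 1 := by positivity
  obtain ⟨Y, iY1, iY2, iY3, e1, he1, he2, he3⟩ := exists_renorm hC φ hφB
  refine ⟨Y, iY1, iY2, iY3, X, inferInstance, inferInstance, inferInstance, ⟨e1⟩,
    ⟨ContinuousLinearEquiv.refl 𝕜 X⟩, fun T => ?_⟩
  by_contra hcon
  push Not at hcon
  have hn1 : ∀ (R : Finset ι) (c : ι → 𝕜), R.card = M → (∀ j, ‖c j‖ ≤ 1) →
      ‖e1 (∑ j ∈ R, c j • x j)‖ ≤ 1 := by
    intro R c hR hc
    apply he3 _ _ zero_le_one
    · rw [div_le_one hC]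
      calc ‖∑ j ∈ R, c j • x j‖ ≤ ∑ j ∈ R, ‖c j • x j‖ := norm_sum_le _ _
        _ ≤ ∑ j ∈ R, B := by
            refine Finset.sum_le_sum fun j _ => ?_
            rw [norm_smul]
            calc ‖c j‖ * ‖x j‖ ≤ 1 * B :=
                  mul_le_mul (hc j) (hB j).1 (norm_nonneg _) zero_le_one
              _ = B := one_mul _
        _ = M * B := by rw [Finset.sum_const, hR, nsmul_eq_mul]
        _ ≤ _ := by linarith
    · intro s
      rw [hφval]
      have h3 : ‖f s (∑ j ∈ R, c j • x j)‖ ≤ 1 + M * ε := by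
        rw [map_sum]
        refine (norm_sum_le _ _).trans ?_
        calc ∑ j ∈ R, ‖f s (c j • x j)‖ ≤ ∑ j ∈ R, ((if s = j then 1 else 0) + ε) := by
              refine Finset.sum_le_sum fun j _ => ?_
              rw [map_smul, norm_smul]
              have h4 : ‖f s (x j)‖ ≤ (if s = j then 1 else 0) + ε := by
                by_cases hsj : s = j
                · subst hsj
                  rw [h1, norm_one, if_pos rfl]
                  linarith
                · rw [if_neg hsj, zero_add]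
                  exact h2 s j hsj
              calc ‖c j‖ * ‖f s (x j)‖ ≤ 1 * ‖f s (x j)‖ :=
                    mul_le_mul_of_nonneg_right (hc j) (norm_nonneg _)
                _ ≤ _ := by rw [one_mul]; exact h4
          _ = (if s ∈ R then 1 else 0) + M * ε := by
              rw [Finset.sum_add_distrib, Finset.sum_ite_eq, Finset.sum_const, hR, nsmul_eq_mul]
          _ ≤ 1 + M * ε := by
              split_ifs <;> linarith
      have h5 : (M : ℝ) * ε = 1 := by
        rw [hεdef, mul_one_div_cancel hM0'.ne']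
      linarith
  set a : ℝ := ‖(T : Y →L[𝕜] X)‖ with ha
  have ha0 : 0 < a := by
    rcases (norm_nonneg (T : Y →L[𝕜] X)).eq_or_lt with h | h
    · exfalso
      obtain ⟨i⟩ := hιne
      have h3 : (T : Y →L[𝕜] X) = 0 := norm_eq_zero.mp h.symm
      have h4 : T (e1 (x i)) = 0 := by
        have := congrArg (fun L : Y →L[𝕜] X => L (e1 (x i))) h3
        simpa using this
      have h5 : x i = 0 := by simpa using h4
      have h6 := h1 i
      rw [h5, map_zero] at h6
      exact zero_ne_one h6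
    · exact h
  let U : X →L[𝕜] X := (((a⁻¹ : ℝ)) : 𝕜) • ((T : Y →L[𝕜] X).comp (e1 : X →L[𝕜] Y))
  have hUe : ∀ z, ‖U z‖ = a⁻¹ * ‖T (e1 z)‖ := by
    intro z
    change ‖(((a⁻¹ : ℝ)) : 𝕜) • T (e1 z)‖ = _
    rw [norm_smul, RCLike.norm_ofReal, abs_of_pos (inv_pos.mpr ha0)]
  have hU1 : ∀ z, ‖U z‖ ≤ ‖e1 z‖ := by
    intro z
    rw [hUe, inv_mul_le_iff₀ ha0]
    exact (T : Y →L[𝕜] X).le_opNorm _
  have hU2 : ∀ z, ‖e1 z‖ ≤ ‖(T.symm : X →L[𝕜] Y)‖ * a * ‖U z‖ := by
    intro z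
    rw [hUe, mul_assoc, ← mul_assoc a, mul_inv_cancel₀ ha0.ne', one_mul]
    have := (T.symm : X →L[𝕜] Y).le_opNorm (T (e1 z))
    simpa using this
  obtain ⟨j, hj⟩ := exists_good (v := fun j => U (x j)) (by rw [hι]; exact hκ)
    (by rw [hι]; exact hGκ) (δ := δ) (fun g hg =>
      finite_large (N := fun z => ‖z‖) (k := 1) (fun z => by simp) hM0 hMδ (by
        intro R c hR hc
        have e : ∑ j ∈ R, c j • U (x j) = U (∑ j ∈ R, c j • x j) := by
          rw [map_sum]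
          simp_rw [map_smul]
        change ‖∑ j ∈ R, c j • U (x j)‖ ≤ 1
        rw [e]
        exact (hU1 _).trans (hn1 R c hR hc)) g (hG1 g hg))
  have h3 : c * ‖U (x j)‖ ≤ δ := hc _ _ hj
  have h4 : (1 : ℝ) / 2 ≤ ‖e1 (x j)‖ := by
    have := he2 j (x j)
    rwa [hφval, h1, norm_one, mul_one] at this
  have h5 : ‖(T.symm : X →L[𝕜] Y)‖ * a ≤ K := by
    rw [mul_comm]
    exact hcon.trans (le_max_left _ _)
  have h6 : (1 : ℝ) / 2 ≤ K * ‖U (x j)‖ :=
    (h4.trans (hU2 _)).trans (mul_le_mul_of_nonneg_right h5 (norm_nonneg _))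
  have h7 : ‖U (x j)‖ ≤ 1 / (8 * (K + 1)) := by
    have h8 : ‖U (x j)‖ ≤ δ / c := by
      rw [le_div_iff₀ hc0, mul_comm]
      exact h3
    have h9 : δ / c = 1 / (8 * (K + 1)) := by
      rw [hδdef]
      field_simp
    rwa [h9] at h8
  have h10 : K * ‖U (x j)‖ ≤ K * (1 / (8 * (K + 1))) := mul_le_mul_of_nonneg_left h7 hK0
  have h11 : K * (1 / (8 * (K + 1))) ≤ 1 / 8 := by
    rw [mul_one_div, div_le_div_iff₀ (by positivity) (by norm_num)]
    linarith
  linarith

end Pool.Agent.Lib.MP_76005e_an
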